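import Mathlib

set_option autoImplicit false

namespace Pool.Agent.Helper456.HC

open Finset

/-- `f` is a sign function on the `k`-subsets of `X` all of whose sums over the supersets of a
set with fewer than `s` elements vanish. -/
structure HS {α : Type*} [DecidableEq α] (s k : ℕ) (X : Finset α) (f : Finset α → ℤ) : Prop where
  sign : ∀ S ⊆ X, S.card = k → f S = 1 ∨ f S = -1
  null : ∀ T : Finset α, T.card < s →
    ∑ S ∈ (X.powersetCard k).filter (fun S => T ⊆ S), f S = 0

/-- The existence of such a function on an `n`-set. -/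
def LS (s k n : ℕ) : Prop := ∃ f : Finset (Fin n) → ℤ, HS s k (univ : Finset (Fin n)) f

section basic

variable {α β : Type*} [DecidableEq α] [DecidableEq β]

lemma sum_empty_of_not_subset {k : ℕ} {X T : Finset α} (hT : ¬ T ⊆ X) (f : Finset α → ℤ) :
    ∑ S ∈ (X.powersetCard k).filter (fun S => T ⊆ S), f S = 0 := by
  rw [Finset.filter_false_of_mem, Finset.sum_empty]
  intro S hS hTS
  exact hT (hTS.trans (Finset.mem_powersetCard.1 hS).1)

lemma map_preimage_eq (φ : β ↪ α) (Y : Finset β) (S : Finset α) (hS : S ⊆ Y.map φ) :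
    (S.preimage φ φ.injective.injOn).map φ = S := by
  ext x
  simp only [Finset.mem_map, Finset.mem_preimage]
  constructor
  · rintro ⟨y, hy, rfl⟩; exact hy
  · intro hx
    obtain ⟨y, _, rfl⟩ := Finset.mem_map.1 (hS hx)
    exact ⟨y, hx, rfl⟩

lemma preimage_map_eq (φ : β ↪ α) (S : Finset β) :
    (S.map φ).preimage φ φ.injective.injOn = S := by
  ext x
  simp

/-- Pushing forward along an embedding. -/
lemma HS.push {s k : ℕ} {Y : Finset β} {f : Finset β → ℤ} (h : HS s k Y f) (φ : β ↪ α) :
    HS s k (Y.map φ) (fun S => f (S.preimage φ φ.injective.injOn)) := by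
  constructor
  · intro S hS hc
    apply h.sign
    · intro x hx
      rw [Finset.mem_preimage] at hx
      have := hS hx
      simpa using this
    · have := map_preimage_eq φ Y S hS
      rw [← hc]
      conv_rhs => rw [← this]
      rw [Finset.card_map]
  · intro T hT
    by_cases hTX : T ⊆ Y.map φ
    · have hT0 := map_preimage_eq φ Y T hTX
      have hc : (T.preimage φ φ.injective.injOn).card < s := by
        rw [← Finset.card_map φ, hT0]; exact hT
      have := h.null _ hc
      rw [← this]
      refine Finset.sum_nbij' (fun S => S.preimage φ φ.injective.injOn) (fun S => S.map φ)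
        ?_ ?_ ?_ ?_ ?_
      · intro S hS
        rw [Finset.mem_filter, Finset.mem_powersetCard] at hS ⊢
        have hm := map_preimage_eq φ Y S hS.1.1
        refine ⟨⟨?_, ?_⟩, ?_⟩
        · intro x hx
          rw [Finset.mem_preimage] at hx
          have := hS.1.1 hx
          simpa using this
        · rw [← Finset.card_map φ, hm]; exact hS.1.2
        · intro x hx
          rw [Finset.mem_preimage] at hx ⊢
          exact hS.2 hx
      · intro S hS
        rw [Finset.mem_filter, Finset.mem_powersetCard] at hS ⊢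
        refine ⟨⟨Finset.map_subset_map.2 hS.1.1, by rw [Finset.card_map]; exact hS.1.2⟩, ?_⟩
        rw [← hT0]
        exact Finset.map_subset_map.2 hS.2
      · intro S hS
        rw [Finset.mem_filter, Finset.mem_powersetCard] at hS
        exact map_preimage_eq φ Y S hS.1.1
      · intro S _
        exact preimage_map_eq φ S
      · intro S _; rfl
    · exact sum_empty_of_not_subset hTX _

/-- Pulling back along an embedding. -/
lemma HS.pull {s k : ℕ} {Y : Finset β} {g : Finset α → ℤ} (φ : β ↪ α)
    (h : HS s k (Y.map φ) g) : HS s k Y (fun S => g (S.map φ)) := by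
  constructor
  · intro S hS hc
    exact h.sign _ (Finset.map_subset_map.2 hS) (by rw [Finset.card_map]; exact hc)
  · intro T hT
    rw [← h.null (T.map φ) (by rw [Finset.card_map]; exact hT)]
    refine Finset.sum_nbij' (fun S => S.map φ) (fun S => S.preimage φ φ.injective.injOn)
        ?_ ?_ ?_ ?_ ?_
    · intro S hS
      rw [Finset.mem_filter, Finset.mem_powersetCard] at hS ⊢
      exact ⟨⟨Finset.map_subset_map.2 hS.1.1, by rw [Finset.card_map]; exact hS.1.2⟩,
        Finset.map_subset_map.2 hS.2⟩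
    · intro S hS
      rw [Finset.mem_filter, Finset.mem_powersetCard] at hS ⊢
      have hm := map_preimage_eq φ Y S hS.1.1
      refine ⟨⟨?_, ?_⟩, ?_⟩
      · intro x hx
        rw [Finset.mem_preimage] at hx
        have := hS.1.1 hx
        simpa using this
      · rw [← Finset.card_map φ, hm]; exact hS.1.2
      · intro x hx
        rw [Finset.mem_preimage]
        exact hS.2 (Finset.mem_map_of_mem φ hx)
    · intro S _
      exact preimage_map_eq φ S
    · intro S hS
      rw [Finset.mem_filter, Finset.mem_powersetCard] at hS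
      exact map_preimage_eq φ Y S hS.1.1
    · intro S _; rfl

lemma exists_emb {n : ℕ} (X : Finset α) (hX : X.card = n) :
    ∃ φ : Fin n ↪ α, (univ : Finset (Fin n)).map φ = X := by
  have e : Fin n ≃ X := (X.equivFinOfCardEq hX).symm
  refine ⟨e.toEmbedding.trans (Function.Embedding.subtype _), ?_⟩
  ext x
  simp only [Finset.mem_map, Finset.mem_univ, true_and, Function.Embedding.trans_apply,
    Equiv.coe_toEmbedding, Function.Embedding.subtype_apply]
  constructor
  · rintro ⟨y, rfl⟩; exact (e y).2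
  · intro hx; exact ⟨e.symm ⟨x, hx⟩, by simp⟩

lemma LS.on {s k n : ℕ} (h : LS s k n) (X : Finset α) (hX : X.card = n) :
    ∃ f : Finset α → ℤ, HS s k X f := by
  obtain ⟨f, hf⟩ := h
  obtain ⟨φ, hφ⟩ := exists_emb X hX
  have := hf.push φ
  rw [hφ] at this
  exact ⟨_, this⟩

lemma HS.ls {s k n : ℕ} {X : Finset α} {f : Finset α → ℤ} (h : HS s k X f) (hX : X.card = n) :
    LS s k n := by
  obtain ⟨φ, hφ⟩ := exists_emb X hX
  rw [← hφ] at h
  exact ⟨_, h.pull φ⟩

/-- The derived function. -/
lemma HS.derived {s k : ℕ} {X : Finset α} {p : α} (hp : p ∉ X) {f : Finset α → ℤ}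
    (h : HS (s + 1) (k + 1) (insert p X) f) : HS s k X (fun S => f (insert p S)) := by
  constructor
  · intro S hS hc
    exact h.sign _ (Finset.insert_subset_insert p hS)
      (by rw [Finset.card_insert_of_notMem (fun h => hp (hS h)), hc])
  · intro T hT
    by_cases hTX : T ⊆ X
    · have hpT : p ∉ T := fun h => hp (hTX h)
      rw [← h.null (insert p T) (by rw [Finset.card_insert_of_notMem hpT]; omega)]
      refine Finset.sum_nbij' (fun S => insert p S) (fun S => S.erase p) ?_ ?_ ?_ ?_ ?_
      · intro S hS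
        rw [Finset.mem_filter, Finset.mem_powersetCard] at hS ⊢
        have hpS : p ∉ S := fun h => hp (hS.1.1 h)
        exact ⟨⟨Finset.insert_subset_insert p hS.1.1,
          by rw [Finset.card_insert_of_notMem hpS, hS.1.2]⟩, Finset.insert_subset_insert p hS.2⟩
      · intro S hS
        rw [Finset.mem_filter, Finset.mem_powersetCard] at hS ⊢
        have hpS : p ∈ S := hS.2 (Finset.mem_insert_self p T)
        refine ⟨⟨?_, ?_⟩, ?_⟩
        · intro x hx
          rw [Finset.mem_erase] at hx
          exact (Finset.mem_insert.1 (hS.1.1 hx.2)).resolve_left hx.1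
        · rw [Finset.card_erase_of_mem hpS, hS.1.2]; rfl
        · intro x hx
          rw [Finset.mem_erase]
          exact ⟨fun h => hpT (h ▸ hx), hS.2 (Finset.mem_insert_of_mem hx)⟩
      · intro S hS
        rw [Finset.mem_filter, Finset.mem_powersetCard] at hS
        exact Finset.erase_insert (fun h => hp (hS.1.1 h))
      · intro S hS
        rw [Finset.mem_filter] at hS
        exact Finset.insert_erase (hS.2 (Finset.mem_insert_self p T))
      · intro S _; rfl
    · exact sum_empty_of_not_subset hTX _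

lemma sum_neg_one_pow_inter (T U : Finset α) :
    ∑ T' ∈ T.powerset.filter (fun T' => T' ⊆ U), (-1 : ℤ) ^ T'.card
      = if Disjoint U T then 1 else 0 := by
  have h1 : T.powerset.filter (fun T' => T' ⊆ U) = (T ∩ U).powerset := by
    ext x
    simp only [Finset.mem_filter, Finset.mem_powerset, Finset.subset_inter_iff]
  rw [h1, Finset.sum_powerset_neg_one_pow_card]
  by_cases h : Disjoint U T
  · rw [if_pos h, if_pos]
    rw [← Finset.disjoint_iff_inter_eq_empty]; exact h.symm
  · rw [if_neg h, if_neg]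
    intro h2
    exact h (Finset.disjoint_iff_inter_eq_empty.2 h2).symm

/-- Complementation. -/
lemma HS.compl {s k : ℕ} {X : Finset α} {f : Finset α → ℤ} (h : HS s k X f) (hk : k ≤ X.card) :
    HS s (X.card - k) X (fun S => f (X \ S)) := by
  constructor
  · intro S hS hc
    refine h.sign _ Finset.sdiff_subset ?_
    rw [Finset.card_sdiff_of_subset hS, hc]; omega
  · intro T hT
    by_cases hTX : T ⊆ X
    · have h1 : ∑ S ∈ (X.powersetCard (X.card - k)).filter (fun S => T ⊆ S), f (X \ S)
          = ∑ U ∈ X.powersetCard k, if Disjoint U T then f U else 0 := by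
        rw [← Finset.sum_filter]
        refine Finset.sum_nbij' (fun S => X \ S) (fun S => X \ S) ?_ ?_ ?_ ?_ ?_
        · intro S hS
          rw [Finset.mem_filter, Finset.mem_powersetCard] at hS ⊢
          refine ⟨⟨Finset.sdiff_subset, ?_⟩, ?_⟩
          · rw [Finset.card_sdiff_of_subset hS.1.1, hS.1.2]; omega
          · rw [Finset.disjoint_left]
            intro x hx hxT
            exact (Finset.mem_sdiff.1 hx).2 (hS.2 hxT)
        · intro S hS
          rw [Finset.mem_filter, Finset.mem_powersetCard] at hS ⊢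
          refine ⟨⟨Finset.sdiff_subset, ?_⟩, ?_⟩
          · rw [Finset.card_sdiff_of_subset hS.1.1, hS.1.2]
          · intro x hxT
            rw [Finset.mem_sdiff]
            exact ⟨hTX hxT, fun hxS => Finset.disjoint_left.1 hS.2 hxS hxT⟩
        · intro S hS
          rw [Finset.mem_filter, Finset.mem_powersetCard] at hS
          exact Finset.sdiff_sdiff_eq_self hS.1.1
        · intro S hS
          rw [Finset.mem_filter, Finset.mem_powersetCard] at hS
          exact Finset.sdiff_sdiff_eq_self hS.1.1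
        · intro S _; rfl
      rw [h1]
      have h2 : ∀ U ∈ X.powersetCard k, (if Disjoint U T then f U else 0)
          = ∑ T' ∈ T.powerset, if T' ⊆ U then (-1 : ℤ) ^ T'.card * f U else 0 := by
        intro U _
        rw [← Finset.sum_filter, ← Finset.sum_mul, sum_neg_one_pow_inter]
        split_ifs <;> simp
      rw [Finset.sum_congr rfl h2, Finset.sum_comm]
      refine Finset.sum_eq_zero fun T' hT' => ?_
      rw [← Finset.sum_filter, ← Finset.mul_sum]
      rw [h.null T' (lt_of_le_of_lt (Finset.card_le_card (Finset.mem_powerset.1 hT')) hT), mul_zero]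
    · exact sum_empty_of_not_subset hTX _

lemma LS.compl {s k n : ℕ} (h : LS s k n) (hk : k ≤ n) : LS s (n - k) n := by
  obtain ⟨f, hf⟩ := h
  have hc : (univ : Finset (Fin n)).card = n := by simp
  have := hf.compl (by rw [hc]; exact hk)
  rw [hc] at this
  exact ⟨_, this⟩

/-- The Pascal rule. -/
lemma HS.pascal {s k : ℕ} {X : Finset α} {p : α} (hp : p ∉ X) {f g : Finset α → ℤ}
    (hf : HS s k X f) (hg : HS s (k + 1) X g) :
    HS s (k + 1) (insert p X) (fun S => if p ∈ S then f (S.erase p) else g S) := by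
  constructor
  · intro S hS hc
    by_cases hpS : p ∈ S
    · rw [if_pos hpS]
      refine hf.sign _ ?_ ?_
      · intro x hx
        rw [Finset.mem_erase] at hx
        exact (Finset.mem_insert.1 (hS hx.2)).resolve_left hx.1
      · rw [Finset.card_erase_of_mem hpS, hc]; rfl
    · rw [if_neg hpS]
      refine hg.sign _ ?_ hc
      intro x hx
      exact (Finset.mem_insert.1 (hS hx)).resolve_left (fun h => hpS (h ▸ hx))
  · intro T hT
    rw [Finset.powersetCard_succ_insert hp, Finset.sum_filter, Finset.sum_union]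
    · rw [← Finset.sum_filter]
      have h1 : ∑ S ∈ (X.powersetCard (k + 1)).filter (fun S => T ⊆ S),
          (if p ∈ S then f (S.erase p) else g S)
          = ∑ S ∈ (X.powersetCard (k + 1)).filter (fun S => T ⊆ S), g S := by
        refine Finset.sum_congr rfl fun S hS => ?_
        rw [Finset.mem_filter, Finset.mem_powersetCard] at hS
        rw [if_neg (fun h => hp (hS.1.1 h))]
      rw [h1, hg.null T hT, zero_add, Finset.sum_image]
      · have h2 : ∀ S ∈ X.powersetCard k,
            (if T ⊆ insert p S then (if p ∈ insert p S then f ((insert p S).erase p)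
              else g (insert p S)) else 0)
            = if T.erase p ⊆ S then f S else 0 := by
          intro S hS
          rw [Finset.mem_powersetCard] at hS
          have hpS : p ∉ S := fun h => hp (hS.1 h)
          rw [if_pos (Finset.mem_insert_self p S), Finset.erase_insert hpS]
          have : T ⊆ insert p S ↔ T.erase p ⊆ S := by
            rw [Finset.subset_insert_iff]
          simp only [this]
        rw [Finset.sum_congr rfl h2, ← Finset.sum_filter]
        exact hf.null _ (lt_of_le_of_lt (Finset.card_le_card (Finset.erase_subset _ _)) hT)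
      · intro S hS S' hS' heq
        simp only [Finset.mem_coe, Finset.mem_powersetCard] at hS hS'
        have h3 : (insert p S).erase p = (insert p S').erase p := by rw [heq]
        rwa [Finset.erase_insert (fun h => hp (hS.1 h)),
          Finset.erase_insert (fun h => hp (hS'.1 h))] at h3
    · rw [Finset.disjoint_left]
      intro S hS hS'
      rw [Finset.mem_image] at hS'
      obtain ⟨S0, _, rfl⟩ := hS'
      exact hp ((Finset.mem_powersetCard.1 hS).1 (Finset.mem_insert_self p S0))

lemma LS.pascal {s k n : ℕ} (h1 : LS s k n) (h2 : LS s (k + 1) n) : LS s (k + 1) (n + 1) := by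
  obtain ⟨f, hf⟩ := h1.on (Finset.range n) (Finset.card_range n)
  obtain ⟨g, hg⟩ := h2.on (Finset.range n) (Finset.card_range n)
  have hp : n ∉ Finset.range n := Finset.notMem_range_self
  exact (HS.pascal hp hf hg).ls (by rw [Finset.card_insert_of_notMem hp, Finset.card_range])

/-- A product piece. -/
lemma piece_null {s1 s2 a b k : ℕ} {X Y Z : Finset α} (hYZ : Disjoint Y Z) (hX : Y ∪ Z ⊆ X)
    {f g : Finset α → ℤ} (hf : HS s1 a Y f) (hg : HS s2 b Z g) (hk : a + b = k)
    (T : Finset α) (hT : T.card < s1 + s2) :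
    ∑ S ∈ (X.powersetCard k).filter (fun S => T ⊆ S),
      (if S ⊆ Y ∪ Z ∧ (S ∩ Y).card = a then f (S ∩ Y) * g (S ∩ Z) else 0) = 0 := by
  by_cases hTX : T ⊆ Y ∪ Z
  · rw [← Finset.sum_filter]
    have hkey : ∑ S ∈ ((X.powersetCard k).filter (fun S => T ⊆ S)).filter
        (fun S => S ⊆ Y ∪ Z ∧ (S ∩ Y).card = a), f (S ∩ Y) * g (S ∩ Z)
        = ∑ p ∈ ((Y.powersetCard a).filter (fun A => T ∩ Y ⊆ A)) ×ˢ
            ((Z.powersetCard b).filter (fun B => T ∩ Z ⊆ B)), f p.1 * g p.2 := by
      refine Finset.sum_nbij' (fun S => (S ∩ Y, S ∩ Z)) (fun p => p.1 ∪ p.2) ?_ ?_ ?_ ?_ ?_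
      · intro S hS
        simp only [Finset.mem_filter, Finset.mem_powersetCard] at hS
        obtain ⟨⟨⟨_, hc⟩, hTS⟩, hSYZ, ha⟩ := hS
        have hu : (S ∩ Y) ∪ (S ∩ Z) = S := by
          rw [← Finset.inter_union_distrib_left]; exact Finset.inter_eq_left.2 hSYZ
        have hd : Disjoint (S ∩ Y) (S ∩ Z) :=
          hYZ.mono Finset.inter_subset_right Finset.inter_subset_right
        have hcard : (S ∩ Y).card + (S ∩ Z).card = k := by
          rw [← Finset.card_union_of_disjoint hd, hu, hc]
        simp only [Finset.mem_product, Finset.mem_filter, Finset.mem_powersetCard]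
        exact ⟨⟨⟨Finset.inter_subset_right, ha⟩, Finset.inter_subset_inter hTS (le_refl _)⟩,
          ⟨⟨Finset.inter_subset_right, by omega⟩, Finset.inter_subset_inter hTS (le_refl _)⟩⟩
      · rintro ⟨A, B⟩ hp
        simp only [Finset.mem_product, Finset.mem_filter, Finset.mem_powersetCard] at hp
        obtain ⟨⟨⟨hAY, hAc⟩, hTA⟩, ⟨⟨hBZ, hBc⟩, hTB⟩⟩ := hp
        have hd : Disjoint A B := hYZ.mono hAY hBZ
        have hi : (A ∪ B) ∩ Y = A := by
          rw [Finset.union_inter_distrib_right, Finset.inter_eq_left.2 hAY,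
            Finset.disjoint_iff_inter_eq_empty.1 (hYZ.symm.mono_left hBZ), Finset.union_empty]
        simp only [Finset.mem_filter, Finset.mem_powersetCard]
        refine ⟨⟨⟨(Finset.union_subset_union hAY hBZ).trans hX, ?_⟩, ?_⟩,
          Finset.union_subset_union hAY hBZ, ?_⟩
        · rw [Finset.card_union_of_disjoint hd, hAc, hBc, hk]
        · intro x hx
          rcases Finset.mem_union.1 (hTX hx) with h | h
          · exact Finset.mem_union_left _ (hTA (Finset.mem_inter.2 ⟨hx, h⟩))
          · exact Finset.mem_union_right _ (hTB (Finset.mem_inter.2 ⟨hx, h⟩))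
        · rw [hi, hAc]
      · intro S hS
        simp only [Finset.mem_filter, Finset.mem_powersetCard] at hS
        obtain ⟨_, hSYZ, _⟩ := hS
        simp only
        rw [← Finset.inter_union_distrib_left]; exact Finset.inter_eq_left.2 hSYZ
      · rintro ⟨A, B⟩ hp
        simp only [Finset.mem_product, Finset.mem_filter, Finset.mem_powersetCard] at hp
        obtain ⟨⟨⟨hAY, hAc⟩, hTA⟩, ⟨⟨hBZ, hBc⟩, hTB⟩⟩ := hp
        simp only [Prod.mk.injEq]
        constructor
        · rw [Finset.union_inter_distrib_right, Finset.inter_eq_left.2 hAY,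
            Finset.disjoint_iff_inter_eq_empty.1 (hYZ.symm.mono_left hBZ), Finset.union_empty]
        · rw [Finset.union_inter_distrib_right, Finset.inter_eq_left.2 hBZ,
            Finset.disjoint_iff_inter_eq_empty.1 (hYZ.mono_left hAY), Finset.empty_union]
      · intro S _; rfl
    rw [hkey, Finset.sum_product, ← Finset.sum_mul_sum]
    have hcT : (T ∩ Y).card + (T ∩ Z).card = T.card := by
      rw [← Finset.card_union_of_disjoint
        (hYZ.mono Finset.inter_subset_right Finset.inter_subset_right),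
        ← Finset.inter_union_distrib_left, Finset.inter_eq_left.2 hTX]
    by_cases h1 : (T ∩ Y).card < s1
    · rw [hf.null _ h1, zero_mul]
    · rw [hg.null _ (by omega), mul_zero]
  · refine Finset.sum_eq_zero fun S hS => ?_
    rw [Finset.mem_filter] at hS
    rw [if_neg]
    rintro ⟨h1, -⟩
    exact hTX (hS.2.trans h1)

lemma HS.trivial (b : ℕ) (Z : Finset α) : HS 0 b Z (fun _ => 1) :=
  ⟨fun _ _ _ => Or.inl rfl, fun _ hT => absurd hT (Nat.not_lt_zero _)⟩

end basic

/-- The recursion in the number of points. -/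
theorem vrec (k u w : ℕ) (hk : 4 ≤ k) (hku : k < u) (hu : LS 4 k u)
    (hv : ∀ i, 4 ≤ i → i ≤ k → LS 4 i (w + 3)) : LS 4 k (u + w) := by
  classical
  set Y0 : Finset ℕ := Finset.Ico u (u + w) with hY0
  set Y1 := insert 0 Y0 with hY1
  set Y2 := insert 1 Y1 with hY2
  set Y3 := insert 2 Y2 with hY3
  set Z3 : Finset ℕ := Finset.Ico 3 u with hZ3
  set Z2 := insert 2 Z3 with hZ2
  set Z1 := insert 1 Z2 with hZ1
  set Z0 := insert 0 Z1 with hZ0
  have m0 : ∀ x, x ∈ Y0 ↔ u ≤ x ∧ x < u + w := fun x => by rw [hY0, Finset.mem_Ico]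
  have n3 : ∀ x, x ∈ Z3 ↔ 3 ≤ x ∧ x < u := fun x => by rw [hZ3, Finset.mem_Ico]
  have m1 : ∀ x, x ∈ Y1 ↔ x = 0 ∨ (u ≤ x ∧ x < u + w) := fun x => by
    rw [hY1, Finset.mem_insert, m0]
  have m2 : ∀ x, x ∈ Y2 ↔ x = 1 ∨ x = 0 ∨ (u ≤ x ∧ x < u + w) := fun x => by
    rw [hY2, Finset.mem_insert, m1]
  have m3 : ∀ x, x ∈ Y3 ↔ x = 2 ∨ x = 1 ∨ x = 0 ∨ (u ≤ x ∧ x < u + w) := fun x => by
    rw [hY3, Finset.mem_insert, m2]
  have n2 : ∀ x, x ∈ Z2 ↔ x = 2 ∨ (3 ≤ x ∧ x < u) := fun x => by rw [hZ2, Finset.mem_insert, n3]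
  have n1 : ∀ x, x ∈ Z1 ↔ x = 1 ∨ x = 2 ∨ (3 ≤ x ∧ x < u) := fun x => by
    rw [hZ1, Finset.mem_insert, n2]
  have n0 : ∀ x, x ∈ Z0 ↔ x = 0 ∨ x = 1 ∨ x = 2 ∨ (3 ≤ x ∧ x < u) := fun x => by
    rw [hZ0, Finset.mem_insert, n1]
  have q0 : 0 ∉ Y0 := by rw [m0]; omega
  have q1 : 1 ∉ Y1 := by rw [m1]; omega
  have q2 : 2 ∉ Y2 := by rw [m2]; omega
  have r2 : 2 ∉ Z3 := by rw [n3]; omega
  have r1 : 1 ∉ Z2 := by rw [n2]; omega
  have r0 : 0 ∉ Z1 := by rw [n1]; omega
  have cY0 : Y0.card = w := by rw [hY0, Nat.card_Ico]; omega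
  have cY3 : Y3.card = w + 3 := by
    rw [hY3, Finset.card_insert_of_notMem q2, hY2, Finset.card_insert_of_notMem q1, hY1,
      Finset.card_insert_of_notMem q0, cY0]
  have cZ0 : Z0.card = u := by
    rw [hZ0, Finset.card_insert_of_notMem r0, hZ1, Finset.card_insert_of_notMem r1, hZ2,
      Finset.card_insert_of_notMem r2, hZ3, Nat.card_Ico]; omega
  -- ingredients
  obtain ⟨g0, hg0⟩ := hu.on Z0 cZ0
  obtain ⟨k3, rfl⟩ : ∃ k3, k = k3 + 3 := ⟨k - 3, by omega⟩
  have hg1 : HS 3 (k3 + 2) Z1 (fun S => g0 (insert 0 S)) := HS.derived r0 hg0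
  have hg2 : HS 2 (k3 + 1) Z2 (fun S => g0 (insert 0 (insert 1 S))) := HS.derived r1 hg1
  have hg3 : HS 1 k3 Z3 (fun S => g0 (insert 0 (insert 1 (insert 2 S)))) := HS.derived r2 hg2
  obtain ⟨h, hh⟩ := (hv 4 le_rfl hk).on Y3 cY3
  have hf3 : HS 3 3 Y2 (fun S => h (insert 2 S)) := HS.derived q2 hh
  have hf2 : HS 2 2 Y1 (fun S => h (insert 2 (insert 1 S))) := HS.derived q1 hf3
  have hf1 : HS 1 1 Y0 (fun S => h (insert 2 (insert 1 (insert 0 S)))) := HS.derived q0 hf2
  have hex : ∀ i, ∃ f : Finset ℕ → ℤ, 4 ≤ i → i ≤ k3 + 3 → HS 4 i Y3 f := by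
    intro i
    by_cases hi : 4 ≤ i ∧ i ≤ k3 + 3
    · obtain ⟨f, hf⟩ := (hv i hi.1 hi.2).on Y3 cY3
      exact ⟨f, fun _ _ => hf⟩
    · exact ⟨fun _ => 0, fun h1 h2 => absurd ⟨h1, h2⟩ hi⟩
  choose h4 hh4 using hex
  set f1 : Finset ℕ → ℤ := fun S => h (insert 2 (insert 1 (insert 0 S)))
  set f2 : Finset ℕ → ℤ := fun S => h (insert 2 (insert 1 S))
  set f3 : Finset ℕ → ℤ := fun S => h (insert 2 S)
  set g1 : Finset ℕ → ℤ := fun S => g0 (insert 0 S)
  set g2 : Finset ℕ → ℤ := fun S => g0 (insert 0 (insert 1 S))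
  set g3 : Finset ℕ → ℤ := fun S => g0 (insert 0 (insert 1 (insert 2 S)))
  set X : Finset ℕ := Y3 ∪ Z3 with hX
  have mX : ∀ x, x ∈ X ↔ x < u + w := fun x => by
    rw [hX, Finset.mem_union, m3, n3]; omega
  have cX : X.card = u + w := by
    have : X = Finset.range (u + w) := by ext x; rw [mX, Finset.mem_range]
    rw [this, Finset.card_range]
  set P0 : Finset ℕ → ℤ := fun S =>
    if S ⊆ ∅ ∪ Z0 ∧ (S ∩ ∅).card = 0 then (fun _ => (1 : ℤ)) (S ∩ ∅) * g0 (S ∩ Z0) else 0 with hP0
  set P1 : Finset ℕ → ℤ := fun S =>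
    if S ⊆ Y0 ∪ Z1 ∧ (S ∩ Y0).card = 1 then f1 (S ∩ Y0) * g1 (S ∩ Z1) else 0 with hP1
  set P2 : Finset ℕ → ℤ := fun S =>
    if S ⊆ Y1 ∪ Z2 ∧ (S ∩ Y1).card = 2 then f2 (S ∩ Y1) * g2 (S ∩ Z2) else 0 with hP2
  set P3 : Finset ℕ → ℤ := fun S =>
    if S ⊆ Y2 ∪ Z3 ∧ (S ∩ Y2).card = 3 then f3 (S ∩ Y2) * g3 (S ∩ Z3) else 0 with hP3
  set P4 : Finset ℕ → ℤ := fun S => ∑ a ∈ Finset.Icc 4 (k3 + 3),
    if S ⊆ Y3 ∪ Z3 ∧ (S ∩ Y3).card = a then h4 a (S ∩ Y3) * (fun _ => (1 : ℤ)) (S ∩ Z3) else 0
    with hP4
  have hres : HS 4 (k3 + 3) X (fun S => P0 S + P1 S + P2 S + P3 S + P4 S) := by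
    constructor
    · intro S hS hc
      -- cardinalities
      have c1 : (S ∩ Y1).card = (S ∩ Y0).card + (if 0 ∈ S then 1 else 0) := by
        split_ifs with h0
        · rw [hY1, Finset.inter_insert_of_mem h0, Finset.card_insert_of_notMem]
          intro h'; exact q0 (Finset.mem_inter.1 h').2
        · rw [hY1, Finset.inter_insert_of_notMem h0, add_zero]
      have c2 : (S ∩ Y2).card = (S ∩ Y1).card + (if 1 ∈ S then 1 else 0) := by
        split_ifs with h0
        · rw [hY2, Finset.inter_insert_of_mem h0, Finset.card_insert_of_notMem]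
          intro h'; exact q1 (Finset.mem_inter.1 h').2
        · rw [hY2, Finset.inter_insert_of_notMem h0, add_zero]
      have c3 : (S ∩ Y3).card = (S ∩ Y2).card + (if 2 ∈ S then 1 else 0) := by
        split_ifs with h0
        · rw [hY3, Finset.inter_insert_of_mem h0, Finset.card_insert_of_notMem]
          intro h'; exact q2 (Finset.mem_inter.1 h').2
        · rw [hY3, Finset.inter_insert_of_notMem h0, add_zero]
      have cle : (S ∩ Y3).card ≤ k3 + 3 := by
        rw [← hc]; exact Finset.card_le_card Finset.inter_subset_left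
      have s0 : (S ⊆ ∅ ∪ Z0 ∧ (S ∩ ∅).card = 0) ↔ (S ∩ Y0).card = 0 := by
        rw [Finset.empty_union, Finset.inter_empty, Finset.card_empty, Finset.card_eq_zero]
        constructor
        · rintro ⟨h1, -⟩
          rw [← Finset.disjoint_iff_inter_eq_empty, Finset.disjoint_left]
          intro x hx hx'
          have := (n0 x).1 (h1 hx)
          have := (m0 x).1 hx'
          omega
        · intro h1
          refine ⟨fun x hx => ?_, rfl⟩
          have h2 := (mX x).1 (hS hx)
          have h3 : x ∉ Y0 := fun h' => by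
            have : x ∈ S ∩ Y0 := Finset.mem_inter.2 ⟨hx, h'⟩
            rw [h1] at this; simp at this
          rw [m0] at h3; rw [n0]; omega
      have s1 : S ⊆ Y0 ∪ Z1 ↔ 0 ∉ S := by
        constructor
        · intro h1 h0
          have := h1 h0
          rw [Finset.mem_union, m0, n1] at this; omega
        · intro h0 x hx
          have h2 := (mX x).1 (hS hx)
          have h3 : x ≠ 0 := fun h' => h0 (h' ▸ hx)
          rw [Finset.mem_union, m0, n1]; omega
      have s2 : S ⊆ Y1 ∪ Z2 ↔ 1 ∉ S := by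
        constructor
        · intro h1 h0
          have := h1 h0
          rw [Finset.mem_union, m1, n2] at this; omega
        · intro h0 x hx
          have h2 := (mX x).1 (hS hx)
          have h3 : x ≠ 1 := fun h' => h0 (h' ▸ hx)
          rw [Finset.mem_union, m1, n2]; omega
      have s3 : S ⊆ Y2 ∪ Z3 ↔ 2 ∉ S := by
        constructor
        · intro h1 h0
          have := h1 h0
          rw [Finset.mem_union, m2, n3] at this; omega
        · intro h0 x hx
          have h2 := (mX x).1 (hS hx)
          have h3 : x ≠ 2 := fun h' => h0 (h' ▸ hx)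
          rw [Finset.mem_union, m2, n3]; omega
      -- splitting of the size of S
      have hsplit : ∀ Y Z : Finset ℕ, Disjoint Y Z → S ⊆ Y ∪ Z →
          (S ∩ Y).card + (S ∩ Z).card = k3 + 3 := by
        intro Y Z hd hs
        rw [← Finset.card_union_of_disjoint
          (hd.mono Finset.inter_subset_right Finset.inter_subset_right),
          ← Finset.inter_union_distrib_left, Finset.inter_eq_left.2 hs, hc]
      have mulsign : ∀ a b : ℤ, (a = 1 ∨ a = -1) → (b = 1 ∨ b = -1) → (a * b = 1 ∨ a * b = -1) := by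
        rintro a b (rfl | rfl) (rfl | rfl) <;> simp
      have v0 : (S ∩ Y0).card = 0 → P0 S = 1 ∨ P0 S = -1 := by
        intro h1
        have h2 := s0.2 h1
        rw [hP0]; simp only
        rw [if_pos h2, one_mul]
        have h3 : S ⊆ Z0 := by simpa using h2.1
        rw [Finset.inter_eq_left.2 h3]
        exact hg0.sign S h3 hc
      have v0' : (S ∩ Y0).card ≠ 0 → P0 S = 0 := by
        intro h1
        rw [hP0]; simp only
        rw [if_neg (fun h2 => h1 (s0.1 h2))]
      have v1 : 0 ∉ S → (S ∩ Y0).card = 1 → P1 S = 1 ∨ P1 S = -1 := by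
        intro h1 h2
        rw [hP1]; simp only
        rw [if_pos ⟨s1.2 h1, h2⟩]
        have h3 := hsplit Y0 Z1 (by
          rw [Finset.disjoint_left]; intro x; rw [m0, n1]; omega) (s1.2 h1)
        exact mulsign _ _ (hf1.sign _ Finset.inter_subset_right h2)
          (hg1.sign _ Finset.inter_subset_right (by omega))
      have v1' : ¬ (0 ∉ S ∧ (S ∩ Y0).card = 1) → P1 S = 0 := by
        intro h1
        rw [hP1]; simp only
        rw [if_neg (fun h2 => h1 ⟨s1.1 h2.1, h2.2⟩)]
      have v2 : 1 ∉ S → (S ∩ Y1).card = 2 → P2 S = 1 ∨ P2 S = -1 := by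
        intro h1 h2
        rw [hP2]; simp only
        rw [if_pos ⟨s2.2 h1, h2⟩]
        have h3 := hsplit Y1 Z2 (by
          rw [Finset.disjoint_left]; intro x; rw [m1, n2]; omega) (s2.2 h1)
        exact mulsign _ _ (hf2.sign _ Finset.inter_subset_right h2)
          (hg2.sign _ Finset.inter_subset_right (by omega))
      have v2' : ¬ (1 ∉ S ∧ (S ∩ Y1).card = 2) → P2 S = 0 := by
        intro h1
        rw [hP2]; simp only
        rw [if_neg (fun h2 => h1 ⟨s2.1 h2.1, h2.2⟩)]
      have v3 : 2 ∉ S → (S ∩ Y2).card = 3 → P3 S = 1 ∨ P3 S = -1 := by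
        intro h1 h2
        rw [hP3]; simp only
        rw [if_pos ⟨s3.2 h1, h2⟩]
        have h3 := hsplit Y2 Z3 (by
          rw [Finset.disjoint_left]; intro x; rw [m2, n3]; omega) (s3.2 h1)
        exact mulsign _ _ (hf3.sign _ Finset.inter_subset_right h2)
          (hg3.sign _ Finset.inter_subset_right (by omega))
      have v3' : ¬ (2 ∉ S ∧ (S ∩ Y2).card = 3) → P3 S = 0 := by
        intro h1
        rw [hP3]; simp only
        rw [if_neg (fun h2 => h1 ⟨s3.1 h2.1, h2.2⟩)]
      have v4 : 4 ≤ (S ∩ Y3).card → P4 S = 1 ∨ P4 S = -1 := by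
        intro h1
        rw [hP4]; simp only
        rw [Finset.sum_eq_single (S ∩ Y3).card]
        · rw [if_pos ⟨hS, rfl⟩, mul_one]
          exact (hh4 _ h1 cle).sign _ Finset.inter_subset_right rfl
        · intro b _ hb
          rw [if_neg (fun h2 => hb h2.2.symm)]
        · intro h2
          exact absurd (Finset.mem_Icc.2 ⟨h1, cle⟩) h2
      have v4' : ¬ 4 ≤ (S ∩ Y3).card → P4 S = 0 := by
        intro h1
        rw [hP4]
        refine Finset.sum_eq_zero fun a ha => ?_
        rw [if_neg]
        rintro ⟨-, h2⟩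
        rw [Finset.mem_Icc] at ha
        omega
      by_cases e0 : (S ∩ Y0).card = 0
      · rw [v1' (by omega), v2' (by split_ifs at c1 <;> omega),
          v3' (by split_ifs at c1 c2 <;> omega), v4' (by split_ifs at c1 c2 c3 <;> omega)]
        simpa using v0 e0
      rw [v0' e0]
      by_cases e1 : 0 ∉ S ∧ (S ∩ Y0).card = 1
      · rw [if_neg e1.1] at c1
        rw [v2' (by omega), v3' (by split_ifs at c2 <;> omega),
          v4' (by split_ifs at c2 c3 <;> omega)]
        simpa using v1 e1.1 e1.2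
      rw [v1' e1]
      have e1' : 2 ≤ (S ∩ Y1).card := by
        by_cases h0 : 0 ∈ S
        · rw [if_pos h0] at c1; omega
        · rw [if_neg h0] at c1
          have : (S ∩ Y0).card ≠ 1 := fun h' => e1 ⟨h0, h'⟩
          omega
      by_cases e2 : 1 ∉ S ∧ (S ∩ Y1).card = 2
      · rw [if_neg e2.1] at c2
        rw [v3' (by omega), v4' (by split_ifs at c3 <;> omega)]
        simpa using v2 e2.1 e2.2
      rw [v2' e2]
      have e2' : 3 ≤ (S ∩ Y2).card := by
        by_cases h0 : 1 ∈ S
        · rw [if_pos h0] at c2; omega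
        · rw [if_neg h0] at c2
          have : (S ∩ Y1).card ≠ 2 := fun h' => e2 ⟨h0, h'⟩
          omega
      by_cases e3 : 2 ∉ S ∧ (S ∩ Y2).card = 3
      · rw [if_neg e3.1] at c3
        rw [v4' (by omega)]
        simpa using v3 e3.1 e3.2
      rw [v3' e3]
      have e3' : 4 ≤ (S ∩ Y3).card := by
        by_cases h0 : 2 ∈ S
        · rw [if_pos h0] at c3; omega
        · rw [if_neg h0] at c3
          have : (S ∩ Y2).card ≠ 3 := fun h' => e3 ⟨h0, h'⟩
          omega
      simpa using v4 e3'
    · intro T hT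
      rw [Finset.sum_add_distrib, Finset.sum_add_distrib, Finset.sum_add_distrib,
        Finset.sum_add_distrib]
      have t0 : ∑ S ∈ (X.powersetCard (k3 + 3)).filter (fun S => T ⊆ S), P0 S = 0 :=
        piece_null (s1 := 0) (s2 := 4) (a := 0) (b := k3 + 3) (Finset.disjoint_empty_left _)
          (by
            intro x hx
            rw [Finset.empty_union, n0] at hx
            rw [mX]; omega)
          (HS.trivial 0 ∅) hg0 (by omega) T (by omega)
      have t1 : ∑ S ∈ (X.powersetCard (k3 + 3)).filter (fun S => T ⊆ S), P1 S = 0 :=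
        piece_null (s1 := 1) (s2 := 3) (a := 1) (b := k3 + 2)
          (by rw [Finset.disjoint_left]; intro x; rw [m0, n1]; omega)
          (by intro x; rw [Finset.mem_union, m0, n1, mX]; omega) hf1 hg1 (by omega) T (by omega)
      have t2 : ∑ S ∈ (X.powersetCard (k3 + 3)).filter (fun S => T ⊆ S), P2 S = 0 :=
        piece_null (s1 := 2) (s2 := 2) (a := 2) (b := k3 + 1)
          (by rw [Finset.disjoint_left]; intro x; rw [m1, n2]; omega)
          (by intro x; rw [Finset.mem_union, m1, n2, mX]; omega) hf2 hg2 (by omega) T (by omega)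
      have t3 : ∑ S ∈ (X.powersetCard (k3 + 3)).filter (fun S => T ⊆ S), P3 S = 0 :=
        piece_null (s1 := 3) (s2 := 1) (a := 3) (b := k3)
          (by rw [Finset.disjoint_left]; intro x; rw [m2, n3]; omega)
          (by intro x; rw [Finset.mem_union, m2, n3, mX]; omega) hf3 hg3 (by omega) T (by omega)
      have t4 : ∑ S ∈ (X.powersetCard (k3 + 3)).filter (fun S => T ⊆ S), P4 S = 0 := by
        rw [hP4, Finset.sum_comm]
        refine Finset.sum_eq_zero fun a ha => ?_
        rw [Finset.mem_Icc] at ha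
        exact piece_null (s1 := 4) (s2 := 0) (a := a) (b := k3 + 3 - a)
          (by rw [Finset.disjoint_left]; intro x; rw [m3, n3]; omega)
          (by rw [hX]) (hh4 a ha.1 ha.2) (HS.trivial _ Z3) (by omega) T (by omega)
      rw [t0, t1, t2, t3, t4]; rfl
  exact hres.ls cX

end Pool.Agent.Helper456.HC
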