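import Mathlib

set_option autoImplicit false

namespace Pool.Agent.Helper456.HC

open Finset

section van

variable {α A : Type*} [DecidableEq α]

/-- All iterated differences of order `s` of `F` on the `k`-subsets of `V` vanish. -/
def Van [AddCommGroup A] : ℕ → ℕ → Finset α → (Finset α → A) → Prop
  | 0, k, V, F => ∀ S ∈ V.powersetCard k, F S = 0
  | _ + 1, 0, _, _ => True
  | s + 1, k + 1, V, F => ∀ a ∈ V, ∀ b ∈ V, a ≠ b →
      Van s k ((V.erase a).erase b) (fun R => F (insert a R) - F (insert b R))

lemma ins_mem {V R : Finset α} {k : ℕ} {a b : α} (ha : a ∈ V) (hb : b ∈ V)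
    (hab : a ≠ b) (hR : R ∈ ((V.erase a).erase b).powersetCard k) :
    insert a R ∈ V.powersetCard (k + 1) ∧ insert b R ∈ V.powersetCard (k + 1) ∧ a ∉ R ∧ b ∉ R := by
  rw [Finset.mem_powersetCard] at hR
  have h1 : a ∉ R := fun h => by
    have := hR.1 h
    rw [Finset.mem_erase, Finset.mem_erase] at this
    exact this.2.1 rfl
  have h2 : b ∉ R := fun h => by
    have := hR.1 h
    rw [Finset.mem_erase] at this
    exact this.1 rfl
  have h3 : R ⊆ V := fun x hx => by
    have := hR.1 hx
    rw [Finset.mem_erase, Finset.mem_erase] at this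
    exact this.2.2
  refine ⟨?_, ?_, h1, h2⟩
  · rw [Finset.mem_powersetCard, Finset.card_insert_of_notMem h1, hR.2]
    exact ⟨Finset.insert_subset ha h3, rfl⟩
  · rw [Finset.mem_powersetCard, Finset.card_insert_of_notMem h2, hR.2]
    exact ⟨Finset.insert_subset hb h3, rfl⟩

variable [AddCommGroup A]

lemma Van.congr : ∀ (s k : ℕ) (V : Finset α) (F G : Finset α → A),
    (∀ S ∈ V.powersetCard k, F S = G S) → Van s k V F → Van s k V G
  | 0, k, V, F, G, h, hF => by
      intro S hS
      rw [← h S hS]; exact hF S hS
  | _ + 1, 0, _, _, _, _, _ => trivial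
  | s + 1, k + 1, V, F, G, h, hF => by
      intro a ha b hb hab
      refine Van.congr s k _ _ _ ?_ (hF a ha b hb hab)
      intro R hR
      obtain ⟨h1, h2, -, -⟩ := ins_mem ha hb hab hR
      rw [h _ h1, h _ h2]

lemma Van.mono : ∀ (s k : ℕ) (V V' : Finset α) (F : Finset α → A),
    V' ⊆ V → Van s k V F → Van s k V' F
  | 0, k, V, V', F, h, hF => by
      intro S hS
      exact hF S (Finset.powersetCard_mono h hS)
  | _ + 1, 0, _, _, _, _, _ => trivial
  | s + 1, k + 1, V, V', F, h, hF => by
      intro a ha b hb hab
      refine Van.mono s k _ _ _ ?_ (hF a (h ha) b (h hb) hab)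
      exact Finset.erase_subset_erase _ (Finset.erase_subset_erase _ h)

lemma Van.sub : ∀ (s k : ℕ) (V : Finset α) (F G : Finset α → A),
    Van s k V F → Van s k V G → Van s k V (fun S => F S - G S)
  | 0, k, V, F, G, hF, hG => by
      intro S hS
      simp only
      rw [hF S hS, hG S hS, sub_zero]
  | _ + 1, 0, _, _, _, _, _ => trivial
  | s + 1, k + 1, V, F, G, hF, hG => by
      intro a ha b hb hab
      refine Van.congr s k _ _ _ ?_ (Van.sub s k _ _ _ (hF a ha b hb hab) (hG a ha b hb hab))
      intro R hR
      simp only
      rw [sub_sub_sub_comm]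

/-- Sum of a function over the small subsets. -/
def Sg (s : ℕ) (c : Finset α → A) (S : Finset α) : A :=
  ∑ T ∈ S.powerset, if T.card < s then c T else 0

lemma Sg_insert (s : ℕ) (c : Finset α → A) (a : α) (R : Finset α) (ha : a ∉ R) :
    Sg (s + 1) c (insert a R) = Sg (s + 1) c R + Sg s (fun T => c (insert a T)) R := by
  unfold Sg
  rw [Finset.sum_powerset_insert ha]
  congr 1
  refine Finset.sum_congr rfl fun T hT => ?_
  rw [Finset.mem_powerset] at hT
  rw [Finset.card_insert_of_notMem (fun h => ha (hT h))]
  simp only [Nat.succ_lt_succ_iff]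

lemma Sg_sub (s : ℕ) (c d : Finset α → A) (S : Finset α) :
    Sg s c S - Sg s d S = Sg s (fun T => c T - d T) S := by
  unfold Sg
  rw [← Finset.sum_sub_distrib]
  refine Finset.sum_congr rfl fun T _ => ?_
  split_ifs <;> simp

lemma Sg_add (s : ℕ) (c d : Finset α → A) (S : Finset α) :
    Sg s (fun T => c T + d T) S = Sg s c S + Sg s d S := by
  unfold Sg
  rw [← Finset.sum_add_distrib]
  refine Finset.sum_congr rfl fun T _ => ?_
  split_ifs <;> simp

lemma Van.sg : ∀ (s k : ℕ) (V : Finset α) (c : Finset α → A), Van s k V (Sg s c)
  | 0, k, V, c => by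
      intro S _
      unfold Sg
      exact Finset.sum_eq_zero fun T _ => if_neg (Nat.not_lt_zero _)
  | _ + 1, 0, _, _ => trivial
  | s + 1, k + 1, V, c => by
      intro a ha b hb hab
      refine Van.congr s k _ _ _ ?_
        (Van.sg s k ((V.erase a).erase b) (fun T => c (insert a T) - c (insert b T)))
      intro R hR
      obtain ⟨-, -, h1, h2⟩ := ins_mem ha hb hab hR
      rw [Sg_insert s c a R h1, Sg_insert s c b R h2, ← Sg_sub]
      abel

lemma Van.loc : ∀ (s k : ℕ) (W : Finset α) (F : Finset α → A), k + s < W.card →
    (∀ q ∈ W, Van s k (W.erase q) F) → Van s k W F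
  | 0, k, W, F, hc, h => by
      intro S hS
      rw [Finset.mem_powersetCard] at hS
      obtain ⟨q, hq, hqS⟩ : ∃ q ∈ W, q ∉ S := by
        by_contra hcon
        push Not at hcon
        have := Finset.card_le_card (show W ⊆ S from hcon)
        omega
      refine h q hq S ?_
      rw [Finset.mem_powersetCard]
      exact ⟨fun x hx => Finset.mem_erase.2 ⟨fun h => hqS (h ▸ hx), hS.1 hx⟩, hS.2⟩
  | _ + 1, 0, _, _, _, _ => trivial
  | s + 1, k + 1, W, F, hc, h => by
      intro a ha b hb hab
      have hba : b ∈ W.erase a := Finset.mem_erase.2 ⟨hab.symm, hb⟩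
      refine Van.loc s k _ _ ?_ ?_
      · rw [Finset.card_erase_of_mem hba, Finset.card_erase_of_mem ha]; omega
      · intro q hq
        rw [Finset.mem_erase, Finset.mem_erase] at hq
        have := h q hq.2.2 a (Finset.mem_erase.2 ⟨fun h => hq.2.1 h.symm, ha⟩) b
          (Finset.mem_erase.2 ⟨fun h => hq.1 h.symm, hb⟩) hab
        have he : ((W.erase a).erase b).erase q = ((W.erase q).erase a).erase b := by
          ext x; simp only [Finset.mem_erase]; tauto
        rw [he]; exact this

lemma sum_smul_inter (S U : Finset α) (x : A) :
    ∑ T ∈ S.powerset, (if T ⊆ U then ((-1 : ℤ) ^ T.card) • x else 0)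
      = if Disjoint S U then x else 0 := by
  have h1 : ∑ T ∈ S.powerset, (if T ⊆ U then ((-1 : ℤ) ^ T.card) • x else 0)
      = ∑ T ∈ (S ∩ U).powerset, ((-1 : ℤ) ^ T.card) • x := by
    rw [← Finset.sum_filter]
    refine Finset.sum_congr ?_ fun _ _ => rfl
    ext y
    simp only [Finset.mem_filter, Finset.mem_powerset, Finset.subset_inter_iff]
  rw [h1, ← Finset.sum_smul, Finset.sum_powerset_neg_one_pow_card]
  by_cases h : Disjoint S U
  · rw [if_pos h, if_pos (Finset.disjoint_iff_inter_eq_empty.1 h), one_smul]
  · rw [if_neg h, if_neg (fun h2 => h (Finset.disjoint_iff_inter_eq_empty.2 h2)), zero_smul]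

/-- Every function on the `k`-subsets is a combination of small ones if the complements
are small. -/
lemma struct_base (s k : ℕ) (V : Finset α) (F : Finset α → A) (h : V.card ≤ k + s) :
    ∃ c : Finset α → A, ∀ S ∈ V.powersetCard k, F S = Sg (s + 1) c S := by
  refine ⟨fun T => ∑ U ∈ V.powersetCard (V.card - k),
    if T ⊆ U then ((-1 : ℤ) ^ T.card) • F (V \ U) else 0, ?_⟩
  intro S hS
  rw [Finset.mem_powersetCard] at hS
  have hkV : k ≤ V.card := hS.2 ▸ Finset.card_le_card hS.1
  unfold Sg
  have h1 : ∀ T ∈ S.powerset, (if T.card < s + 1 then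
      ∑ U ∈ V.powersetCard (V.card - k), (if T ⊆ U then ((-1 : ℤ) ^ T.card) • F (V \ U) else 0)
        else 0)
      = ∑ U ∈ V.powersetCard (V.card - k), (if T ⊆ U then ((-1 : ℤ) ^ T.card) • F (V \ U) else 0) := by
    intro T _
    split_ifs with h2
    · rfl
    · symm
      refine Finset.sum_eq_zero fun U hU => ?_
      rw [if_neg]
      intro h3
      have := Finset.card_le_card h3
      rw [Finset.mem_powersetCard] at hU
      omega
  rw [Finset.sum_congr rfl h1, Finset.sum_comm]
  have h2 : ∀ U ∈ V.powersetCard (V.card - k),
      ∑ T ∈ S.powerset, (if T ⊆ U then ((-1 : ℤ) ^ T.card) • F (V \ U) else 0)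
        = if U = V \ S then F S else 0 := by
    intro U hU
    rw [Finset.mem_powersetCard] at hU
    rw [sum_smul_inter]
    by_cases h3 : U = V \ S
    · rw [if_pos h3, h3, if_pos Finset.disjoint_sdiff, Finset.sdiff_sdiff_eq_self hS.1]
    · rw [if_neg h3, if_neg]
      intro h4
      apply h3
      apply Finset.eq_of_subset_of_card_le
      · intro x hx
        rw [Finset.mem_sdiff]
        exact ⟨hU.1 hx, fun h5 => Finset.disjoint_left.1 h4 h5 hx⟩
      · rw [Finset.card_sdiff_of_subset hS.1, hU.2, hS.2]
  rw [Finset.sum_congr rfl h2, Finset.sum_ite_eq', if_pos]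
  rw [Finset.mem_powersetCard, Finset.card_sdiff_of_subset hS.1, hS.2]
  exact ⟨Finset.sdiff_subset, rfl⟩

/-- The structure lemma: a function all of whose `s`-th differences vanish is a combination of
the indicator functions of inclusion of sets with fewer than `s` elements. -/
theorem struct (s : ℕ) : ∀ (k : ℕ) (V : Finset α) (F : Finset α → A), Van s k V F →
    ∃ c : Finset α → A, ∀ S ∈ V.powersetCard k, F S = Sg s c S := by
  induction s with
  | zero =>
    intro k V F hF
    refine ⟨fun _ => 0, fun S hS => ?_⟩
    rw [hF S hS]
    unfold Sg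
    symm
    exact Finset.sum_eq_zero fun T _ => if_neg (Nat.not_lt_zero _)
  | succ s ih =>
    intro k V F hF
    -- induction on the number of points
    obtain ⟨n, hn⟩ : ∃ n, V.card = n := ⟨_, rfl⟩
    induction n using Nat.strong_induction_on generalizing k V F with
    | _ n ihn =>
    by_cases hc : V.card ≤ k + s
    · exact struct_base s k V F hc
    · cases k with
      | zero =>
        refine ⟨fun T => if T = ∅ then F ∅ else 0, ?_⟩
        intro S hS
        rw [Finset.powersetCard_zero, Finset.mem_singleton] at hS
        subst hS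
        unfold Sg
        rw [Finset.powerset_empty, Finset.sum_singleton]
        simp
      | succ k =>
        have hpos : 0 < V.card := by omega
        obtain ⟨p, hp⟩ := Finset.card_pos.1 hpos
        have hce : (V.erase p).card = V.card - 1 := Finset.card_erase_of_mem hp
        obtain ⟨c0, hc0⟩ := ihn (V.erase p).card (by omega) (k + 1) (V.erase p) F
          (Van.mono _ _ _ _ _ (Finset.erase_subset _ _) hF) rfl
        set F' : Finset α → A := fun S => F S - Sg (s + 1) c0 S with hF'
        have hF'v : Van (s + 1) (k + 1) V F' := Van.sub _ _ _ _ _ hF (Van.sg _ _ _ _)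
        have hF'0 : ∀ S ∈ (V.erase p).powersetCard (k + 1), F' S = 0 := by
          intro S hS
          rw [hF']; simp only
          rw [hc0 S hS, sub_self]
        have hH : Van s k (V.erase p) (fun R => F' (insert p R)) := by
          refine Van.loc s k _ _ (by omega) ?_
          intro q hq
          have hq' := hq
          rw [Finset.mem_erase] at hq
          refine Van.congr s k _ _ _ ?_ (hF'v p hp q hq.2 hq.1.symm)
          intro R hR
          rw [hF'0 (insert q R), sub_zero]
          rw [Finset.mem_powersetCard] at hR ⊢
          have hqR : q ∉ R := fun h => by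
            have := hR.1 h
            rw [Finset.mem_erase] at this
            exact this.1 rfl
          rw [Finset.card_insert_of_notMem hqR, hR.2]
          refine ⟨Finset.insert_subset hq' ?_, rfl⟩
          exact hR.1.trans (Finset.erase_subset _ _)
        obtain ⟨d, hd⟩ := ih k (V.erase p) _ hH
        refine ⟨fun T => c0 T + (if p ∈ T then d (T.erase p) else 0), ?_⟩
        intro S hS
        rw [Sg_add]
        by_cases hpS : p ∈ S
        · obtain ⟨R, hR, hRS⟩ : ∃ R, p ∉ R ∧ S = insert p R :=
            ⟨S.erase p, Finset.notMem_erase _ _, (Finset.insert_erase hpS).symm⟩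
          have hRm : R ∈ (V.erase p).powersetCard k := by
            rw [Finset.mem_powersetCard] at hS ⊢
            rw [hRS, Finset.card_insert_of_notMem hR] at hS
            refine ⟨fun x hx => ?_, by omega⟩
            rw [Finset.mem_erase]
            exact ⟨fun h => hR (h ▸ hx), hS.1 (Finset.mem_insert_of_mem hx)⟩
          have h1 : Sg (s + 1) (fun T => if p ∈ T then d (T.erase p) else 0) S = Sg s d R := by
            rw [hRS, Sg_insert _ _ _ _ hR]
            have h2 : Sg (s + 1) (fun T => if p ∈ T then d (T.erase p) else 0) R = 0 := by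
              unfold Sg
              refine Finset.sum_eq_zero fun T hT => ?_
              rw [Finset.mem_powerset] at hT
              simp only
              rw [if_neg (fun h => hR (hT h))]
              split_ifs <;> rfl
            rw [h2, zero_add]
            unfold Sg
            refine Finset.sum_congr rfl fun T hT => ?_
            rw [Finset.mem_powerset] at hT
            simp only
            rw [if_pos (Finset.mem_insert_self p T), Finset.erase_insert (fun h => hR (hT h))]
          rw [h1, ← hd R hRm, hF']
          simp only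
          rw [← hRS]; abel
        · have h1 : Sg (s + 1) (fun T => if p ∈ T then d (T.erase p) else 0) S = 0 := by
            unfold Sg
            refine Finset.sum_eq_zero fun T hT => ?_
            rw [Finset.mem_powerset] at hT
            simp only
            rw [if_neg (fun h => hpS (hT h))]
            split_ifs <;> rfl
          rw [h1, add_zero]
          apply hc0
          rw [Finset.mem_powersetCard] at hS ⊢
          exact ⟨fun x hx => Finset.mem_erase.2 ⟨fun h => hpS (h ▸ hx), hS.1 hx⟩, hS.2⟩

end van

/-- Divisibility of the total. -/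
lemma sum_Sg_dvd {v : ℕ} (s k m : ℕ) (V : Finset (Fin v)) (c : Finset (Fin v) → ℤ)
    (h : ∀ i, i < s → m ∣ (V.card - i).choose (k - i)) :
    (m : ℤ) ∣ ∑ S ∈ V.powersetCard k, Sg s c S := by
  have h1 : ∑ S ∈ V.powersetCard k, Sg s c S
      = ∑ T ∈ (univ : Finset (Finset (Fin v))), ∑ S ∈ V.powersetCard k,
        if T ⊆ S then (if T.card < s then c T else 0) else 0 := by
    rw [Finset.sum_comm]
    refine Finset.sum_congr rfl fun S _ => ?_
    unfold Sg
    rw [← Finset.sum_filter (s := (univ : Finset (Finset (Fin v)))) (p := fun T => T ⊆ S)]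
    refine Finset.sum_congr ?_ fun _ _ => rfl
    ext T
    simp
  rw [h1]
  refine Finset.dvd_sum fun T _ => ?_
  rw [← Finset.sum_filter, Finset.sum_const, nsmul_eq_mul]
  by_cases hT : T.card < s
  · refine Dvd.dvd.mul_right ?_ _
    by_cases hTV : T ⊆ V
    · by_cases hTk : T.card ≤ k
      · have h2 : ((V.powersetCard k).filter (fun S => T ⊆ S)).card
            = (V.card - T.card).choose (k - T.card) := by
          have h3 : ((V.powersetCard k).filter (fun S => T ⊆ S)).card
              = ((V \ T).powersetCard (k - T.card)).card := by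
            refine Finset.card_nbij' (fun S => S \ T) (fun R => R ∪ T) ?_ ?_ ?_ ?_
            · intro S hS
              simp only [Finset.coe_filter, Finset.mem_powersetCard, Set.mem_ofPred_eq] at hS
              simp only [Finset.mem_coe, Finset.mem_powersetCard]
              exact ⟨Finset.sdiff_subset_sdiff hS.1.1 (le_refl _),
                by rw [Finset.card_sdiff_of_subset hS.2, hS.1.2]⟩
            · intro R hR
              simp only [Finset.mem_coe, Finset.mem_powersetCard] at hR
              simp only [Finset.coe_filter, Finset.mem_powersetCard, Set.mem_ofPred_eq]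
              have hd : Disjoint R T := by
                rw [Finset.disjoint_left]
                intro x hx hxT
                exact (Finset.mem_sdiff.1 (hR.1 hx)).2 hxT
              refine ⟨⟨Finset.union_subset (hR.1.trans Finset.sdiff_subset) hTV, ?_⟩,
                Finset.subset_union_right⟩
              rw [Finset.card_union_of_disjoint hd, hR.2]; omega
            · intro S hS
              simp only [Finset.coe_filter, Finset.mem_powersetCard, Set.mem_ofPred_eq] at hS
              exact Finset.sdiff_union_of_subset hS.2
            · intro R hR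
              simp only [Finset.mem_coe, Finset.mem_powersetCard] at hR
              simp only
              rw [Finset.union_sdiff_right]
              refine Finset.sdiff_eq_self_of_disjoint ?_
              rw [Finset.disjoint_left]
              intro x hx hxT
              exact (Finset.mem_sdiff.1 (hR.1 hx)).2 hxT
          rw [h3, Finset.card_powersetCard, Finset.card_sdiff_of_subset hTV]
        rw [h2]
        exact_mod_cast h T.card hT
      · rw [Finset.filter_false_of_mem]
        · simp
        · intro S hS h2
          have := Finset.card_le_card h2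
          rw [Finset.mem_powersetCard] at hS
          omega
    · rw [Finset.filter_false_of_mem]
      · simp
      · intro S hS h2
        exact hTV (h2.trans (Finset.mem_powersetCard.1 hS).1)
  · rw [if_neg hT, mul_zero]; exact dvd_zero _

end Pool.Agent.Helper456.HC
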