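import Mathlib
import Pool.Agent.Helper456.HC.Basic
import Pool.Agent.Helper456.HC.Van
import Pool.Agent.Helper456.HC.Spread

set_option autoImplicit false

namespace Pool.Agent.Helper456.HC

open Finset

/-- The character of the real line with period one. -/
noncomputable def e (t : ℝ) : ℂ := Complex.exp (((2 * Real.pi * t : ℝ) : ℂ) * Complex.I)

lemma e_add (s t : ℝ) : e (s + t) = e s * e t := by
  unfold e
  rw [← Complex.exp_add]
  congr 1
  push_cast
  ring

lemma e_zero : e 0 = 1 := by simp [e]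

lemma e_sum {ι : Type*} (s : Finset ι) (f : ι → ℝ) : e (∑ i ∈ s, f i) = ∏ i ∈ s, e (f i) := by
  classical
  induction s using Finset.induction_on with
  | empty => simp [e_zero]
  | insert a s ha ih => rw [Finset.sum_insert ha, Finset.prod_insert ha, e_add, ih]

lemma e_nat_mul (n : ℕ) (x : ℝ) : e (n * x) = e x ^ n := by
  have := e_sum (Finset.range n) (fun _ => x)
  simpa using this

lemma e_eq_one_iff (x : ℝ) : e x = 1 ↔ ∃ n : ℤ, x = n := by
  unfold e
  rw [Complex.exp_eq_one_iff]
  constructor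
  · rintro ⟨n, hn⟩
    refine ⟨n, ?_⟩
    have h2 : ((2 * Real.pi * x : ℝ) : ℂ) * Complex.I = ((2 * Real.pi * n : ℝ) : ℂ) * Complex.I := by
      rw [hn]; push_cast; ring
    have h3 : ((2 * Real.pi * x : ℝ) : ℂ) = ((2 * Real.pi * n : ℝ) : ℂ) :=
      mul_right_cancel₀ Complex.I_ne_zero h2
    have h4 : 2 * Real.pi * x = 2 * Real.pi * n := by exact_mod_cast h3
    have := Real.pi_pos
    exact mul_left_cancel₀ (by positivity) h4
  · rintro ⟨n, rfl⟩
    refine ⟨n, ?_⟩
    push_cast; ring

lemma e_int (n : ℤ) : e n = 1 := (e_eq_one_iff _).2 ⟨n, rfl⟩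

lemma e_re (t : ℝ) : (e t).re = Real.cos (2 * Real.pi * t) := by
  unfold e; exact Complex.exp_ofReal_mul_I_re _

lemma e_im (t : ℝ) : (e t).im = Real.sin (2 * Real.pi * t) := by
  unfold e; exact Complex.exp_ofReal_mul_I_im _

lemma sum_e_zero (Q : ℕ) (hQ : 0 < Q) (n : ℤ) (h : ¬ (Q : ℤ) ∣ n) :
    ∑ t : Fin Q, e (((t : ℕ) : ℝ) * n / Q) = 0 := by
  have h1 : ∀ t : Fin Q, e (((t : ℕ) : ℝ) * n / Q) = e ((n : ℝ) / Q) ^ (t : ℕ) := by
    intro t
    rw [← e_nat_mul, mul_div_assoc]
  simp_rw [h1]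
  rw [Fin.sum_univ_eq_sum_range (fun i => e ((n : ℝ) / Q) ^ i) Q]
  have hne : e ((n : ℝ) / Q) ≠ 1 := by
    intro h2
    rw [e_eq_one_iff] at h2
    obtain ⟨m, hm⟩ := h2
    apply h
    refine ⟨m, ?_⟩
    have hQ' : (Q : ℝ) ≠ 0 := by positivity
    field_simp at hm
    have : (n : ℝ) = ((Q * m : ℤ) : ℝ) := by push_cast; linarith
    exact_mod_cast this
  rw [geom_sum_eq hne]
  have : e ((n : ℝ) / Q) ^ Q = 1 := by
    rw [← e_nat_mul]
    have hQ' : (Q : ℝ) ≠ 0 := by positivity
    rw [mul_div_cancel₀ _ hQ']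
    exact e_int n
  rw [this]; simp

/-- The Fourier identity: if no choice function has balanced total modulo `Q`,
the sum of all the products vanishes. -/
theorem fourier {J C ι : Type*} [Fintype J] [DecidableEq J] [Fintype C] [Fintype ι]
    [DecidableEq ι] (Q : ℕ) (hQ : 0 < Q) (M : J → C → ι → ℤ)
    (h : ∀ g : J → C, ∃ i, ¬ (Q : ℤ) ∣ ∑ j, M j (g j) i) :
    ∑ τ : ι → Fin Q, ∏ j, ∑ c, e (∑ i, ((τ i : ℕ) : ℝ) * M j c i / Q) = 0 := by
  have key : ∀ τ : ι → Fin Q, (∏ j, ∑ c, e (∑ i, ((τ i : ℕ) : ℝ) * M j c i / Q))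
      = ∑ g : J → C, ∏ i, e (((τ i : ℕ) : ℝ) * ((∑ j, M j (g j) i : ℤ) : ℝ) / Q) := by
    intro τ
    rw [Finset.prod_univ_sum, Fintype.piFinset_univ]
    refine Finset.sum_congr rfl fun g _ => ?_
    rw [← e_sum, ← e_sum, Finset.sum_comm]
    congr 1
    refine Finset.sum_congr rfl fun i _ => ?_
    push_cast
    rw [Finset.mul_sum, Finset.sum_div]
  simp_rw [key]
  rw [Finset.sum_comm]
  refine Finset.sum_eq_zero fun g _ => ?_
  obtain ⟨i, hi⟩ := h g
  have h2 := Finset.prod_univ_sum (fun _ : ι => (Finset.univ : Finset (Fin Q)))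
    (fun (i : ι) (t : Fin Q) => e (((t : ℕ) : ℝ) * ((∑ j, M j (g j) i : ℤ) : ℝ) / Q))
  rw [Fintype.piFinset_univ] at h2
  rw [← h2]
  exact Finset.prod_eq_zero (Finset.mem_univ i) (sum_e_zero Q hQ _ hi)

/-- Final contradiction scheme. -/
lemma sum_ne_zero_of_near {T : Type*} [Fintype T] [DecidableEq T] (φ : T → ℂ) (near : T → Prop)
    (t0 : T) (h0 : φ t0 = 1) (hnear : ∀ t, near t → 0 ≤ (φ t).re) (δ : ℝ) (hδ0 : 0 < δ)
    (hfar : ∀ t, ¬ near t → ‖φ t‖ ≤ δ) (hδ : Fintype.card T * δ ≤ 1) :
    ∑ t, φ t ≠ 0 := by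
  intro hs
  have h1 : (∑ t, φ t).re = ∑ t, (φ t).re := Complex.re_sum _ _
  rw [hs] at h1
  have h2 : ∀ t, (if t = t0 then 1 + δ else 0) - δ ≤ (φ t).re := by
    intro t
    by_cases ht : t = t0
    · subst ht; simp [h0]
    · simp only [ht, if_false]
      by_cases hn : near t
      · have := hnear t hn; linarith
      · have := hfar t hn
        have h3 := Complex.abs_re_le_norm (φ t)
        have h4 := neg_abs_le (φ t).re
        linarith
  have h3 := Finset.sum_le_sum (s := Finset.univ) fun t _ => h2 t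
  rw [← h1, Finset.sum_sub_distrib] at h3
  simp only [Finset.sum_ite_eq', Finset.mem_univ, if_true, Finset.sum_const, Finset.card_univ,
    nsmul_eq_mul, Complex.zero_re] at h3
  linarith

/-- `1 - cos (2 pi t)`. -/
noncomputable def sv (t : ℝ) : ℝ := 1 - Real.cos (2 * Real.pi * t)

lemma sv_nonneg (t : ℝ) : 0 ≤ sv t := by
  unfold sv; linarith [Real.cos_le_one (2 * Real.pi * t)]

lemma sv_lower (t : ℝ) : 8 * (t - round t) ^ 2 ≤ sv t := by
  have h1 : |t - round t| ≤ 1 / 2 := abs_sub_round t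
  have h2 : sv t = 1 - Real.cos (2 * Real.pi * (t - round t)) := by
    unfold sv
    congr 1
    have : 2 * Real.pi * (t - round t) = 2 * Real.pi * t - (round t : ℤ) * (2 * Real.pi) := by
      push_cast; ring
    rw [this, Real.cos_sub_int_mul_two_pi]
  rw [h2]
  have h3 : |2 * Real.pi * (t - round t)| ≤ Real.pi := by
    rw [abs_mul, abs_of_pos (by positivity : (0:ℝ) < 2 * Real.pi)]
    have := Real.pi_pos
    nlinarith
  have h4 := Real.cos_le_one_sub_mul_cos_sq h3
  have h5 : 2 / Real.pi ^ 2 * (2 * Real.pi * (t - round t)) ^ 2 = 8 * (t - round t) ^ 2 := by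
    have := Real.pi_pos.ne'
    field_simp
    ring
  linarith


lemma abs_cos_le (y : ℝ) : |Real.cos (Real.pi * y)| ≤ Real.exp (-(2 * (y - round y) ^ 2)) := by
  have h1 := sv_lower y
  unfold sv at h1
  have h2 : Real.cos (2 * Real.pi * y) = 2 * Real.cos (Real.pi * y) ^ 2 - 1 := by
    rw [← Real.cos_two_mul]; congr 1; ring
  have h3 : Real.cos (Real.pi * y) ^ 2 ≤ Real.exp (-(2 * (y - round y) ^ 2)) ^ 2 := by
    rw [← Real.exp_nat_mul]
    have h4 := Real.add_one_le_exp (((2 : ℕ) : ℝ) * -(2 * (y - round y) ^ 2))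
    refine le_trans ?_ h4
    push_cast
    linarith
  exact abs_le_of_sq_le_sq h3 (Real.exp_pos _).le

lemma e_add_e_neg (x : ℝ) : e x + e (-x) = ((2 * Real.cos (2 * Real.pi * x) : ℝ) : ℂ) := by
  apply Complex.ext
  · rw [Complex.add_re, e_re, e_re, Complex.ofReal_re]
    have : 2 * Real.pi * -x = -(2 * Real.pi * x) := by ring
    rw [this, Real.cos_neg]; ring
  · rw [Complex.add_im, e_im, e_im, Complex.ofReal_im]
    have : 2 * Real.pi * -x = -(2 * Real.pi * x) := by ring
    rw [this, Real.sin_neg]; ring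

/-- Rounding keeps the vanishing of the differences. -/
lemma round_van {α : Type*} [DecidableEq α] : ∀ (s k : ℕ) (V : Finset α) (y : Finset α → ℝ)
    (N : Finset α → ℤ) (ε : ℝ), 2 ^ s * ε ≤ 1 → (∀ S ∈ V.powersetCard k, |y S - N S| < ε) →
    Van s k V y → Van s k V N
  | 0, k, V, y, N, ε, hε, h, hv => by
      intro S hS
      have h1 := h S hS
      rw [hv S hS, zero_sub, abs_neg] at h1
      have h2 : |(N S : ℝ)| < 1 := by rw [pow_zero, one_mul] at hε; linarith
      have h3 : |N S| < 1 := by exact_mod_cast h2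
      exact Int.abs_lt_one_iff.1 h3
  | _ + 1, 0, _, _, _, _, _, _, _ => trivial
  | s + 1, k + 1, V, y, N, ε, hε, h, hv => by
      intro a ha b hb hab
      refine round_van s k _ (fun R => y (insert a R) - y (insert b R)) _ (2 * ε) ?_ ?_
        (hv a ha b hb hab)
      · calc (2 : ℝ) ^ s * (2 * ε) = 2 ^ (s + 1) * ε := by ring
          _ ≤ 1 := hε
      · intro R hR
        obtain ⟨h1, h2, -, -⟩ := ins_mem ha hb hab hR
        have h3 := h _ h1
        have h4 := h _ h2
        push_cast
        rw [abs_lt] at h3 h4 ⊢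
        constructor <;> linarith

lemma prod_zpow_neg_one {J : Type*} (K : Finset J) (N : J → ℤ) :
    ∏ j ∈ K, (-1 : ℝ) ^ (N j) = (-1 : ℝ) ^ (∑ j ∈ K, N j) := by
  classical
  induction K using Finset.induction_on with
  | empty => simp
  | insert a s ha ih =>
    rw [Finset.prod_insert ha, Finset.sum_insert ha, ih, zpow_add₀ (by norm_num)]

lemma cos_eq_sign (y : ℝ) (N : ℤ) :
    Real.cos (Real.pi * y) = (-1 : ℝ) ^ N * Real.cos (Real.pi * (y - N)) := by
  have h1 : Real.pi * (y - N) = Real.pi * y - N * Real.pi := by ring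
  rw [h1, Real.cos_sub_int_mul_pi, ← mul_assoc, ← mul_zpow]
  norm_num

/-- The sets of size exactly `t` control all smaller sets. -/
lemma null_of_null {α : Type*} [DecidableEq α] (t k : ℕ) (htk : t ≤ k) (V : Finset α)
    (f : Finset α → ℤ)
    (h : ∀ T ∈ V.powersetCard t, ∑ S ∈ (V.powersetCard k).filter (fun S => T ⊆ S), f S = 0)
    (T : Finset α) (hT : T.card < t + 1) :
    ∑ S ∈ (V.powersetCard k).filter (fun S => T ⊆ S), f S = 0 := by
  have h1 : ∑ T' ∈ (V.powersetCard t).filter (fun T' => T ⊆ T'),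
      ∑ S ∈ (V.powersetCard k).filter (fun S => T' ⊆ S), f S = 0 :=
    Finset.sum_eq_zero fun T' hT' => h T' (Finset.mem_filter.1 hT').1
  have h2 : ∑ T' ∈ (V.powersetCard t).filter (fun T' => T ⊆ T'),
      ∑ S ∈ (V.powersetCard k).filter (fun S => T' ⊆ S), f S
      = ∑ S ∈ (V.powersetCard k).filter (fun S => T ⊆ S),
        ((k - T.card).choose (t - T.card) : ℤ) * f S := by
    simp_rw [Finset.sum_filter]
    rw [← Finset.sum_filter]
    rw [Finset.sum_comm]
    refine Finset.sum_congr rfl fun S hS => ?_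
    rw [Finset.mem_powersetCard] at hS
    rw [← Finset.sum_filter, Finset.sum_const, nsmul_eq_mul]
    by_cases hTS : T ⊆ S
    · rw [if_pos hTS]
      congr 1
      have h3 : (((V.powersetCard t).filter (fun T' => T ⊆ T')).filter (fun T' => T' ⊆ S)).card
          = ((S \ T).powersetCard (t - T.card)).card := by
        refine Finset.card_nbij' (fun S => S \ T) (fun R => R ∪ T) ?_ ?_ ?_ ?_
        · intro U hU
          simp only [Finset.coe_filter, Finset.mem_filter, Finset.mem_powersetCard,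
            Set.mem_ofPred_eq] at hU
          simp only [Finset.mem_coe, Finset.mem_powersetCard]
          exact ⟨Finset.sdiff_subset_sdiff hU.2 (le_refl _),
            by rw [Finset.card_sdiff_of_subset hU.1.2, hU.1.1.2]⟩
        · intro R hR
          simp only [Finset.mem_coe, Finset.mem_powersetCard] at hR
          simp only [Finset.coe_filter, Finset.mem_filter, Finset.mem_powersetCard,
            Set.mem_ofPred_eq]
          have hd : Disjoint R T := by
            rw [Finset.disjoint_left]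
            intro x hx hxT
            exact (Finset.mem_sdiff.1 (hR.1 hx)).2 hxT
          have hsub : R ∪ T ⊆ S := Finset.union_subset (hR.1.trans Finset.sdiff_subset) hTS
          refine ⟨⟨⟨hsub.trans hS.1, ?_⟩, Finset.subset_union_right⟩, hsub⟩
          rw [Finset.card_union_of_disjoint hd, hR.2]; omega
        · intro U hU
          simp only [Finset.coe_filter, Finset.mem_filter, Finset.mem_powersetCard,
            Set.mem_ofPred_eq] at hU
          exact Finset.sdiff_union_of_subset hU.1.2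
        · intro R hR
          simp only [Finset.mem_coe, Finset.mem_powersetCard] at hR
          simp only
          rw [Finset.union_sdiff_right]
          refine Finset.sdiff_eq_self_of_disjoint ?_
          rw [Finset.disjoint_left]
          intro x hx hxT
          exact (Finset.mem_sdiff.1 (hR.1 hx)).2 hxT
      rw [h3, Finset.card_powersetCard, Finset.card_sdiff_of_subset hTS, hS.2]
    · rw [if_neg hTS]
      rw [Finset.filter_false_of_mem]
      · simp
      · intro T' hT' h3
        exact hTS ((Finset.mem_filter.1 hT').2.trans h3)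
  rw [h2, ← Finset.mul_sum] at h1
  rcases mul_eq_zero.1 h1 with h3 | h3
  · exfalso
    have h4 : 0 < (k - T.card).choose (t - T.card) := Nat.choose_pos (by omega)
    have : (k - T.card).choose (t - T.card) = 0 := by exact_mod_cast h3
    omega
  · exact h3

end Pool.Agent.Helper456.HC
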