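import Mathlib
import Pool.Agent.Helper456.HC.Basic
import Pool.Agent.Helper456.HC.Van
import Pool.Agent.Helper456.HC.Spread
import Pool.Agent.Helper456.HC.Fourier

set_option autoImplicit false

namespace Pool.Agent.Helper456.HC

open Finset

lemma card_sup {α : Type*} [DecidableEq α] (V T : Finset α) (k : ℕ) (hTV : T ⊆ V)
    (hTk : T.card ≤ k) :
    ((V.powersetCard k).filter (fun S => T ⊆ S)).card = (V.card - T.card).choose (k - T.card) := by
  have h3 : ((V.powersetCard k).filter (fun S => T ⊆ S)).card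
      = ((V \ T).powersetCard (k - T.card)).card := by
    refine Finset.card_nbij' (fun S => S \ T) (fun R => R ∪ T) ?_ ?_ ?_ ?_
    · intro S hS
      simp only [Finset.coe_filter, Finset.mem_powersetCard, Set.mem_ofPred_eq] at hS
      simp only [Finset.mem_coe, Finset.mem_powersetCard]
      exact ⟨Finset.sdiff_subset_sdiff hS.1.1 (le_refl _),
        by rw [Finset.card_sdiff_of_subset hS.2, hS.1.2]⟩
    · intro R hR
      simp only [Finset.mem_coe, Finset.mem_powersetCard] at hR
      simp only [Finset.coe_filter, Finset.mem_powersetCard, Set.mem_ofPred_eq]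
      have hd : Disjoint R T := by
        rw [Finset.disjoint_left]
        intro x hx hxT
        exact (Finset.mem_sdiff.1 (hR.1 hx)).2 hxT
      refine ⟨⟨Finset.union_subset (hR.1.trans Finset.sdiff_subset) hTV, ?_⟩,
        Finset.subset_union_right⟩
      rw [Finset.card_union_of_disjoint hd, hR.2]; omega
    · intro S hS
      simp only [Finset.coe_filter, Finset.mem_powersetCard, Set.mem_ofPred_eq] at hS
      exact Finset.sdiff_union_of_subset hS.2
    · intro R hR
      simp only [Finset.mem_coe, Finset.mem_powersetCard] at hR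
      simp only
      rw [Finset.union_sdiff_right]
      refine Finset.sdiff_eq_self_of_disjoint ?_
      rw [Finset.disjoint_left]
      intro x hx hxT
      exact (Finset.mem_sdiff.1 (hR.1 hx)).2 hxT
  rw [h3, Finset.card_powersetCard, Finset.card_sdiff_of_subset hTV]

/-- The incidence matrix with signs. -/
def Mm {v : ℕ} (k t : ℕ) (j : {S : Finset (Fin v) // S.card = k}) (c : Bool)
    (i : {T : Finset (Fin v) // T.card = t}) : ℤ :=
  if i.1 ⊆ j.1 then (if c then 1 else -1) else 0

lemma LS_of_choice {v : ℕ} (k t : ℕ) (htk : t ≤ k) (Q : ℕ)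
    (hQ : Q = (v - t).choose (k - t) + 1)
    (g : {S : Finset (Fin v) // S.card = k} → Bool)
    (hg : ∀ i, (Q : ℤ) ∣ ∑ j, Mm k t j (g j) i) : LS (t + 1) k v := by
  classical
  refine ⟨fun S => if h : S.card = k then (if g ⟨S, h⟩ then 1 else -1) else 0, ?_, ?_⟩
  · intro S _ hc
    rw [dif_pos hc]
    split_ifs <;> simp
  · intro T hT
    refine null_of_null t k htk univ _ ?_ T hT
    intro T hT
    rw [Finset.mem_powersetCard] at hT
    have h1 := hg ⟨T, hT.2⟩
    have h2 : ∑ j : {S : Finset (Fin v) // S.card = k}, Mm k t j (g j) ⟨T, hT.2⟩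
        = ∑ S ∈ ((univ : Finset (Fin v)).powersetCard k).filter (fun S => T ⊆ S),
          (if h : S.card = k then (if g ⟨S, h⟩ then (1 : ℤ) else -1) else 0) := by
      rw [Finset.sum_filter]
      symm
      refine Finset.sum_bij' (fun S hS => (⟨S, (Finset.mem_powersetCard.1 hS).2⟩ :
        {S : Finset (Fin v) // S.card = k})) (fun j _ => j.1) ?_ ?_ ?_ ?_ ?_
      · intro S hS; exact Finset.mem_univ _
      · intro j _; rw [Finset.mem_powersetCard]; exact ⟨Finset.subset_univ _, j.2⟩
      · intro S hS; rfl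
      · intro j _; rfl
      · intro S hS
        have hc := (Finset.mem_powersetCard.1 hS).2
        simp only [Mm, dif_pos hc]
    rw [h2] at h1
    have h3 : |∑ S ∈ ((univ : Finset (Fin v)).powersetCard k).filter (fun S => T ⊆ S),
          (if h : S.card = k then (if g ⟨S, h⟩ then (1 : ℤ) else -1) else 0)| < Q := by
      refine lt_of_le_of_lt (Finset.abs_sum_le_sum_abs _ _) ?_
      have h4 : ∑ S ∈ ((univ : Finset (Fin v)).powersetCard k).filter (fun S => T ⊆ S),
          |(if h : S.card = k then (if g ⟨S, h⟩ then (1 : ℤ) else -1) else 0)|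
          ≤ ∑ S ∈ ((univ : Finset (Fin v)).powersetCard k).filter (fun S => T ⊆ S), (1 : ℤ) := by
        refine Finset.sum_le_sum fun S _ => ?_
        split_ifs <;> simp
      refine lt_of_le_of_lt h4 ?_
      rw [Finset.sum_const, card_sup _ _ _ hT.1 (by rw [hT.2]; exact htk), hT.2, Finset.card_univ,
        Fintype.card_fin, hQ]
      simp
    exact Int.eq_zero_of_abs_lt_dvd h1 h3

/-- The halving theorem in the large range. -/
theorem fourier_LS (t k v : ℕ) (htk : t ≤ k) (hkv : k + t ≤ v)
    (par : ∀ i, i < t + 1 → 2 ∣ (v - i).choose (k - i))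
    (ρ : ℝ) (hρ : 0 ≤ ρ)
    (h1 : 2 ^ t * ((v.choose t : ℝ) * Real.log (((v - t).choose (k - t) : ℝ) + 1) / 2)
      ≤ ρ ^ 2 * ((v - 2 * t).choose (k - t) : ℝ))
    (h2 : ρ * ∑ i ∈ Finset.range (t + 1), ((v : ℝ) / 4) ^ i < 1 / 2 ^ (t + 1)) :
    LS (t + 1) k v := by
  classical
  by_contra hcon
  set Q : ℕ := (v - t).choose (k - t) + 1 with hQ
  have hQ0 : 0 < Q := Nat.succ_pos _
  have hQr : (0 : ℝ) < Q := by exact_mod_cast hQ0
  have hF := fourier Q hQ0 (Mm (v := v) k t) (by
    intro g
    by_contra h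
    push Not at h
    exact hcon (LS_of_choice k t htk Q hQ g h))
  set J := {S : Finset (Fin v) // S.card = k} with hJ
  set I := {T : Finset (Fin v) // T.card = t} with hI
  set y : (I → Fin Q) → Finset (Fin v) → ℝ := fun τ S =>
    ∑ i : I, if i.1 ⊆ S then 2 * ((τ i : ℕ) : ℝ) / Q else 0 with hy
  set φ : (I → Fin Q) → ℂ := fun τ => ((∏ j : J, Real.cos (Real.pi * y τ j.1) : ℝ) : ℂ) with hφ
  -- the local factor
  have hloc : ∀ (τ : I → Fin Q) (j : J), ∑ c, e (∑ i, ((τ i : ℕ) : ℝ) * Mm k t j c i / Q)
      = 2 * ((Real.cos (Real.pi * y τ j.1) : ℝ) : ℂ) := by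
    intro τ j
    rw [Fintype.sum_bool]
    have e1 : ∑ i : I, ((τ i : ℕ) : ℝ) * Mm k t j true i / Q = y τ j.1 / 2 := by
      rw [hy]; try simp only
      rw [Finset.sum_div]
      refine Finset.sum_congr rfl fun i _ => ?_
      unfold Mm
      simp only [if_true]
      split_ifs with h3
      · push_cast; ring
      · simp
    have e2 : ∑ i : I, ((τ i : ℕ) : ℝ) * Mm k t j false i / Q = -(y τ j.1 / 2) := by
      rw [hy]; try simp only
      rw [Finset.sum_div, ← Finset.sum_neg_distrib]
      refine Finset.sum_congr rfl fun i _ => ?_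
      unfold Mm
      simp only [Bool.false_eq_true, if_false]
      split_ifs with h3
      · push_cast; ring
      · simp
    rw [e1, e2, e_add_e_neg]
    have : 2 * Real.pi * (y τ j.1 / 2) = Real.pi * y τ j.1 := by ring
    rw [this]; push_cast; ring
  have hF2 : ∑ τ, φ τ = 0 := by
    have h3 : ∀ τ : I → Fin Q, ∏ j, ∑ c, e (∑ i, ((τ i : ℕ) : ℝ) * Mm k t j c i / Q)
        = 2 ^ (Fintype.card J) * φ τ := by
      intro τ
      rw [Finset.prod_congr rfl (fun j _ => hloc τ j), Finset.prod_mul_distrib,
        Finset.prod_const, Finset.card_univ, hφ]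
      push_cast
      rfl
    have hF3 : ∑ τ : I → Fin Q, (2 : ℂ) ^ (Fintype.card J) * φ τ = 0 := by
      refine Eq.trans ?_ hF
      exact Finset.sum_congr rfl fun τ _ => (h3 τ).symm
    rw [← Finset.mul_sum] at hF3
    rcases mul_eq_zero.1 hF3 with h4 | h4
    · exact absurd h4 (pow_ne_zero _ two_ne_zero)
    · exact h4
  -- vanishing of differences
  have hvan : ∀ τ, Van (t + 1) k (univ : Finset (Fin v)) (y τ) := by
    intro τ
    have h3 : ∀ S, y τ S = Sg (t + 1) (fun T => if h : T.card = t then
        2 * ((τ ⟨T, h⟩ : ℕ) : ℝ) / Q else 0) S := by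
      intro S
      rw [hy]; try simp only
      unfold Sg
      have h4 : ∑ i : I, (if i.1 ⊆ S then 2 * ((τ i : ℕ) : ℝ) / Q else 0)
          = ∑ T ∈ (univ : Finset (Finset (Fin v))).filter (fun T => T.card = t),
            (if T ⊆ S then (if h : T.card = t then 2 * ((τ ⟨T, h⟩ : ℕ) : ℝ) / Q else 0) else 0) := by
        symm
        refine Finset.sum_bij' (fun T hT => (⟨T, (Finset.mem_filter.1 hT).2⟩ : I))
          (fun i _ => i.1) ?_ ?_ ?_ ?_ ?_
        · intro T hT; exact Finset.mem_univ _
        · intro i _; rw [Finset.mem_filter]; exact ⟨Finset.mem_univ _, i.2⟩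
        · intro T hT; rfl
        · intro i _; rfl
        · intro T hT
          have hc := (Finset.mem_filter.1 hT).2
          simp only [dif_pos hc]
      rw [h4, Finset.sum_filter]
      have h5 : S.powerset = (univ : Finset (Finset (Fin v))).filter (fun T => T ⊆ S) := by
        ext T; simp
      rw [h5, Finset.sum_filter]
      refine Finset.sum_congr rfl fun T _ => ?_
      by_cases h6 : T.card = t
      · by_cases h7 : T ⊆ S
        · simp [h6, h7]
        · simp [h7]
      · simp [h6]
    refine Van.congr _ _ _ _ _ (fun S _ => (h3 S).symm) (Van.sg _ _ _ _)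
  -- near and far
  set R : ℝ := (v.choose t : ℝ) * Real.log (Q : ℝ) / 2 with hR
  have hcI : Fintype.card I = v.choose t :=
    (Fintype.card_finset_len t).trans (by rw [Fintype.card_fin])
  have hlogQ : 0 ≤ Real.log (Q : ℝ) := Real.log_nonneg (by exact_mod_cast hQ0)
  have hR0 : 0 ≤ R := by rw [hR]; positivity
  refine sum_ne_zero_of_near φ (fun τ => ∑ j : J, (y τ j.1 - round (y τ j.1)) ^ 2 ≤ R)
    (fun _ => ⟨0, hQ0⟩) ?_ ?_ (Real.exp (-(2 * R))) (Real.exp_pos _) ?_ ?_ hF2
  · rw [hφ]; simp only
    have h3 : ∀ j : J, Real.cos (Real.pi * y (fun _ => ⟨0, hQ0⟩) j.1) = 1 := by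
      intro j
      have h4 : y (fun _ => ⟨0, hQ0⟩) j.1 = 0 := by
        rw [hy]; try simp only
        refine Finset.sum_eq_zero fun i _ => ?_
        split_ifs <;> simp
      rw [h4, mul_zero, Real.cos_zero]
    rw [Finset.prod_congr rfl (fun j _ => h3 j)]
    simp
  · -- near
    intro τ hnear
    rw [hφ]; simp only [Complex.ofReal_re]
    have hnr : ∀ x : ℝ, ‖(x : UnitAddCircle)‖ = |x - round x| :=
      fun _ => UnitAddCircle.norm_eq
    have hsumJ : ∀ F : Finset (Fin v) → ℝ, ∑ j : J, F j.1
        = ∑ S ∈ (univ : Finset (Fin v)).powersetCard k, F S := by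
      intro F
      symm
      refine Finset.sum_bij' (fun S hS => (⟨S, (Finset.mem_powersetCard.1 hS).2⟩ : J))
        (fun j _ => j.1) ?_ ?_ ?_ ?_ ?_
      · intro S hS; exact Finset.mem_univ _
      · intro j _; rw [Finset.mem_powersetCard]; exact ⟨Finset.subset_univ _, j.2⟩
      · intro S hS; rfl
      · intro j _; rfl
      · intro S hS; rfl
    rw [hsumJ (fun S => (y τ S - round (y τ S)) ^ 2)] at hnear
    obtain ⟨j0, rfl⟩ : ∃ j0, k = j0 + t := ⟨k - t, by omega⟩
    obtain ⟨n0, hn0⟩ : ∃ n0, v = n0 + 2 * t := ⟨v - 2 * t, by omega⟩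
    have hvanC : Van (t + 1) (j0 + t) (univ : Finset (Fin v))
        (fun S => ((y τ S : ℝ) : UnitAddCircle)) := by
      exact van_map _ _ _ _ (hvan τ)
    have hsmall := spread ρ ((v : ℝ) / 4) hρ (by positivity) t n0 j0 (univ : Finset (Fin v))
      (fun S => ((y τ S : ℝ) : UnitAddCircle)) R (by rw [Finset.card_univ, Fintype.card_fin, hn0])
      (by rw [Finset.card_univ, Fintype.card_fin]) hR0 hvanC
      (by
        refine le_trans (le_of_eq ?_) hnear
        refine Finset.sum_congr rfl fun S _ => ?_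
        rw [hnr, sq_abs])
      (by
        rw [hR, hQ]
        push_cast
        have e1 : j0 + t - t = j0 := by omega
        have e2 : v - 2 * t = n0 := by omega
        rw [e1, e2] at h1
        rw [e1]
        exact h1)
    have hN : Van (t + 1) (j0 + t) (univ : Finset (Fin v)) (fun S => round (y τ S)) := by
      refine round_van (t + 1) (j0 + t) univ (y τ) _ (1 / 2 ^ (t + 1)) ?_ ?_ (hvan τ)
      · rw [mul_one_div_cancel]; positivity
      · intro S hS
        have := hsmall S hS
        rw [hnr] at this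
        linarith
    obtain ⟨c, hc⟩ := struct (t + 1) _ _ _ hN
    have heven : (2 : ℤ) ∣ ∑ S ∈ (univ : Finset (Fin v)).powersetCard (j0 + t), round (y τ S) := by
      rw [Finset.sum_congr rfl hc]
      have := sum_Sg_dvd (t + 1) (j0 + t) 2 (univ : Finset (Fin v)) c (by
        intro i hi
        rw [Finset.card_univ, Fintype.card_fin]
        exact par i hi)
      exact_mod_cast this
    have heven2 : Even (∑ j : J, round (y τ j.1)) := by
      rw [even_iff_two_dvd]
      refine dvd_trans heven (dvd_of_eq ?_)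
      refine Finset.sum_bij' (fun S hS => (⟨S, (Finset.mem_powersetCard.1 hS).2⟩ : J))
        (fun j _ => j.1) ?_ ?_ ?_ ?_ ?_
      · intro S hS; exact Finset.mem_univ _
      · intro j _; rw [Finset.mem_powersetCard]; exact ⟨Finset.subset_univ _, j.2⟩
      · intro S hS; rfl
      · intro j _; rfl
      · intro S hS; rfl
    have h5 : ∏ j : J, Real.cos (Real.pi * y τ j.1)
        = ∏ j : J, Real.cos (Real.pi * (y τ j.1 - round (y τ j.1))) := by
      rw [Finset.prod_congr rfl (fun j _ => cos_eq_sign (y τ j.1) (round (y τ j.1))),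
        Finset.prod_mul_distrib, prod_zpow_neg_one, heven2.neg_one_zpow, one_mul]
    rw [h5]
    refine Finset.prod_nonneg fun j _ => ?_
    have h6 := abs_sub_round (y τ j.1)
    rw [abs_le] at h6
    have hpi := Real.pi_pos
    apply Real.cos_nonneg_of_neg_pi_div_two_le_of_le
    · nlinarith
    · nlinarith
  · -- far
    intro τ hfar
    push Not at hfar
    rw [hφ]; simp only
    rw [Complex.norm_real, Real.norm_eq_abs, Finset.abs_prod]
    calc ∏ j : J, |Real.cos (Real.pi * y τ j.1)|
        ≤ ∏ j : J, Real.exp (-(2 * (y τ j.1 - round (y τ j.1)) ^ 2)) :=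
          Finset.prod_le_prod (fun _ _ => abs_nonneg _) (fun j _ => abs_cos_le _)
      _ = Real.exp (∑ j : J, -(2 * (y τ j.1 - round (y τ j.1)) ^ 2)) := by rw [Real.exp_sum]
      _ ≤ Real.exp (-(2 * R)) := by
          apply Real.exp_le_exp.2
          rw [Finset.sum_neg_distrib, ← Finset.mul_sum]
          linarith
  · have h3 : Fintype.card (I → Fin Q) = Q ^ (v.choose t) := by
      rw [Fintype.card_fun, Fintype.card_fin, hcI]
    rw [h3]
    push_cast
    have h4 : Real.exp (-(2 * R)) = ((Q : ℝ) ^ (v.choose t))⁻¹ := by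
      have h5 : -(2 * R) = -((v.choose t : ℕ) * Real.log (Q : ℝ)) := by rw [hR]; ring
      rw [h5, Real.exp_neg, Real.exp_nat_mul, Real.exp_log hQr]
    rw [h4, mul_inv_cancel₀ (by positivity)]
where
  van_map {v : ℕ} : ∀ (s k : ℕ) (V : Finset (Fin v)) (y : Finset (Fin v) → ℝ), Van s k V y →
      Van s k V (fun S => ((y S : ℝ) : UnitAddCircle))
    | 0, k, V, y, h => by
        intro S hS
        simp only
        rw [h S hS]; simp
    | _ + 1, 0, _, _, _ => trivial
    | s + 1, k + 1, V, y, h => by
        intro a ha b hb hab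
        refine Van.congr _ _ _ _ _ ?_ (van_map s k _ _ (h a ha b hb hab))
        intro R _
        simp only
        rfl

end Pool.Agent.Helper456.HC
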