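import Mathlib
import Pool.Agent.Helper456.HC.Basic
import Pool.Agent.Helper456.HC.Fourier
import Pool.Agent.Helper456.HC.Main

set_option autoImplicit false

namespace Pool.Agent.Helper456.HC

open Finset

/-- The number of types. -/
def W : List ℕ → ℕ
  | [] => 1
  | b :: bs => (b + 1) * W bs

/-- The number of points. -/
def tt : List ℕ → ℕ
  | [] => 0
  | b :: bs => tt bs + b

/-- The weight of a point. -/
def wt : List ℕ → ℕ → ℕ
  | [], _ => 0
  | b :: bs, x => if x < tt bs then wt bs x else W bs

/-- The type of a set, as a number. -/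
def idx (bs : List ℕ) (S : Finset ℕ) : ℕ := ∑ x ∈ S, wt bs x

/-- A sum over an initial segment. -/
def sumTo (f : ℕ → ℕ) : ℕ → ℕ
  | 0 => 0
  | n + 1 => sumTo f n + f n

lemma sumTo_eq (f : ℕ → ℕ) (n : ℕ) : sumTo f n = ∑ i ∈ Finset.range n, f i := by
  induction n with
  | zero => rfl
  | succ n ih => rw [Finset.sum_range_succ, ← ih]; rfl

/-- Coefficient: the number of `s`-subsets of a `b`-set containing a given `c`-set. -/
def cf (b c s : ℕ) : ℕ := cond (Nat.ble c s) (Nat.choose (b - c) (s - c)) 0

/-- Evaluate the argument first. -/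
def force {α : Type} (n : ℕ) (f : ℕ → α) : α := Nat.casesOn n (f 0) (fun m => f (m + 1))

lemma force_eq {α : Type} (n : ℕ) (f : ℕ → α) : force n f = f n := by
  cases n <;> rfl

/-- Spreading the table. -/
def ex (L : ℕ) : List ℕ → ℕ → ℕ → ℕ
  | [], k, F => cond (Nat.beq k 0) (F % 2) 0
  | b :: bs, k, F => cond (Nat.beq F 0) 0 (cond (Nat.ble k (tt bs + b))
      (sumTo (fun s => cond (Nat.ble s k)
        (2 ^ (L * (s * W bs)) * force (k - s) (fun k' =>
          force ((F / 2 ^ (s * W bs)) % 2 ^ (W bs)) (fun F' => ex L bs k' F'))) 0) (b + 1)) 0)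

/-- The checking function. -/
def chk (L : ℕ) : List ℕ → ℕ → ℕ → ℕ → Bool
  | [], j, x, t => cond (Nat.beq j 0) (Nat.beq x t) true
  | b :: bs, j, x, t => allTo (fun c => cond (Nat.ble c j) (chk L bs (j - c)
      (sumTo (fun s => cf b c s * ((x / 2 ^ (L * (s * W bs))) % 2 ^ (L * W bs))) (b + 1)) t) true)
        (b + 1)
where
  allTo (f : ℕ → Bool) : ℕ → Bool
    | 0 => true
    | n + 1 => allTo f n && f n

lemma allTo_iff (f : ℕ → Bool) (n : ℕ) : chk.allTo f n = true ↔ ∀ i < n, f i = true := by
  induction n with
  | zero => simp [chk.allTo]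
  | succ n ih =>
    rw [chk.allTo, Bool.and_eq_true, ih]
    constructor
    · rintro ⟨h1, h2⟩ i hi
      rcases Nat.lt_succ_iff_lt_or_eq.1 hi with h | rfl
      · exact h1 i h
      · exact h2
    · intro h
      exact ⟨fun i hi => h i (by omega), h n (by omega)⟩

/-- Packed digits. -/
def D (L n : ℕ) (g : ℕ → ℕ) : ℕ := ∑ i ∈ Finset.range n, g i * 2 ^ (L * i)

lemma D_congr (L n : ℕ) (g h : ℕ → ℕ) (hh : ∀ i < n, g i = h i) : D L n g = D L n h := by
  unfold D
  refine Finset.sum_congr rfl fun i hi => ?_
  rw [hh i (Finset.mem_range.1 hi)]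

lemma D_add (L n m : ℕ) (g : ℕ → ℕ) :
    D L (n + m) g = D L n g + 2 ^ (L * n) * D L m (fun i => g (i + n)) := by
  unfold D
  rw [Finset.sum_range_add, Finset.mul_sum]
  congr 1
  refine Finset.sum_congr rfl fun i _ => ?_
  rw [Nat.mul_add, pow_add, Nat.add_comm n i]
  ring

lemma D_lt (L n : ℕ) (g : ℕ → ℕ) (h : ∀ i < n, g i < 2 ^ L) : D L n g < 2 ^ (L * n) := by
  induction n with
  | zero => simp [D]
  | succ n ih =>
    have h1 := ih (fun i hi => h i (by omega))
    have h2 := h n (by omega)
    have h3 : D L (n + 1) g = D L n g + g n * 2 ^ (L * n) := by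
      unfold D; rw [Finset.sum_range_succ]
    rw [h3]
    have h4 : 2 ^ (L * (n + 1)) = 2 ^ L * 2 ^ (L * n) := by rw [← pow_add]; congr 1; ring
    rw [h4]
    calc D L n g + g n * 2 ^ (L * n) < 2 ^ (L * n) + g n * 2 ^ (L * n) := by omega
      _ = (g n + 1) * 2 ^ (L * n) := by ring
      _ ≤ 2 ^ L * 2 ^ (L * n) := Nat.mul_le_mul_right _ h2

lemma D_slice (L a m r : ℕ) (g : ℕ → ℕ) (h : ∀ i < a + m + r, g i < 2 ^ L) :
    (D L (a + m + r) g / 2 ^ (L * a)) % 2 ^ (L * m) = D L m (fun i => g (i + a)) := by
  rw [Nat.add_assoc, D_add, D_add]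
  have h1 : D L a g < 2 ^ (L * a) := D_lt _ _ _ (fun i hi => h i (by omega))
  have h2 : D L m (fun i => g (i + a)) < 2 ^ (L * m) := D_lt _ _ _ (fun i hi => h _ (by omega))
  rw [Nat.add_mul_div_left _ _ (by positivity), Nat.div_eq_of_lt h1, Nat.zero_add,
    Nat.add_mul_mod_self_left, Nat.mod_eq_of_lt h2]

lemma D_blocks (L w : ℕ) (g : ℕ → ℕ) (n : ℕ) :
    D L (n * w) g = ∑ s ∈ Finset.range n, 2 ^ (L * (s * w)) * D L w (fun i => g (i + s * w)) := by
  induction n with
  | zero => simp [D]
  | succ n ih => rw [Nat.succ_mul, D_add, ih, Finset.sum_range_succ]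

/-- Weighted sum over the supersets. -/
def wS (bs : List ℕ) (g : ℕ → ℕ) (T : Finset ℕ) : ℕ :=
  ∑ S ∈ (Finset.range (tt bs)).powerset.filter (fun S => T ⊆ S), g (idx bs S)

lemma W_pos (bs : List ℕ) : 0 < W bs := by
  induction bs with
  | nil => simp [W]
  | cons b bs ih => rw [W]; positivity

lemma idx_cons_low (b : ℕ) (bs : List ℕ) (S : Finset ℕ) (hS : S ⊆ Finset.range (tt bs)) :
    idx (b :: bs) S = idx bs S := by
  unfold idx
  refine Finset.sum_congr rfl fun x hx => ?_
  rw [wt, if_pos (Finset.mem_range.1 (hS hx))]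

lemma idx_cons_high (b : ℕ) (bs : List ℕ) (S : Finset ℕ)
    (hS : S ⊆ Finset.Ico (tt bs) (tt bs + b)) :
    idx (b :: bs) S = S.card * W bs := by
  unfold idx
  rw [Finset.sum_congr rfl (g := fun _ => W bs), Finset.sum_const, smul_eq_mul]
  intro x hx
  have := Finset.mem_Ico.1 (hS hx)
  rw [wt, if_neg (by omega)]

lemma idx_union (bs : List ℕ) (S S' : Finset ℕ) (h : Disjoint S S') :
    idx bs (S ∪ S') = idx bs S + idx bs S' := by
  unfold idx; rw [Finset.sum_union h]

lemma split_eq (n b : ℕ) (S : Finset ℕ) (hS : S ⊆ Finset.range (n + b)) :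
    (S ∩ Finset.range n) ∪ (S ∩ Finset.Ico n (n + b)) = S := by
  ext x
  have := @hS x
  simp only [Finset.mem_union, Finset.mem_inter, Finset.mem_range, Finset.mem_Ico] at this ⊢
  constructor
  · tauto
  · intro hx
    have := this hx
    by_cases h : x < n
    · exact Or.inl ⟨hx, h⟩
    · exact Or.inr ⟨hx, by omega, this⟩

lemma dis (n b : ℕ) : Disjoint (Finset.range n) (Finset.Ico n (n + b)) := by
  rw [Finset.disjoint_left]
  intro x hx hx'
  rw [Finset.mem_range] at hx
  rw [Finset.mem_Ico] at hx'
  omega

lemma idx_split (b : ℕ) (bs : List ℕ) (S : Finset ℕ) (hS : S ⊆ Finset.range (tt bs + b)) :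
    idx (b :: bs) S = idx bs (S ∩ Finset.range (tt bs))
      + (S ∩ Finset.Ico (tt bs) (tt bs + b)).card * W bs := by
  conv_lhs => rw [← split_eq (tt bs) b S hS]
  rw [idx_union _ _ _ ((dis _ _).mono Finset.inter_subset_right Finset.inter_subset_right),
    idx_cons_low _ _ _ Finset.inter_subset_right, idx_cons_high _ _ _ Finset.inter_subset_right]

lemma idx_lt (bs : List ℕ) : ∀ S : Finset ℕ, S ⊆ Finset.range (tt bs) → idx bs S < W bs := by
  induction bs with
  | nil =>
    intro S hS
    have : S = ∅ := by simpa [tt] using hS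
    simp [this, idx, W]
  | cons b bs ih =>
    intro S hS
    rw [tt] at hS
    rw [idx_split b bs S hS, W]
    have h1 := ih (S ∩ Finset.range (tt bs)) Finset.inter_subset_right
    have h2 : (S ∩ Finset.Ico (tt bs) (tt bs + b)).card ≤ b := by
      refine (Finset.card_le_card Finset.inter_subset_right).trans ?_
      rw [Nat.card_Ico]; omega
    calc idx bs (S ∩ Finset.range (tt bs)) + (S ∩ Finset.Ico (tt bs) (tt bs + b)).card * W bs
        < W bs + b * W bs := Nat.add_lt_add_of_lt_of_le h1 (Nat.mul_le_mul_right _ h2)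
      _ = (b + 1) * W bs := by ring

lemma sum_card_block (n b : ℕ) (T : Finset ℕ) (hT : T ⊆ Finset.Ico n (n + b)) (h : ℕ → ℕ) :
    ∑ S ∈ (Finset.Ico n (n + b)).powerset.filter (fun S => T ⊆ S), h S.card
      = ∑ s ∈ Finset.range (b + 1), cf b T.card s * h s := by
  have hmap : ∀ S ∈ (Finset.Ico n (n + b)).powerset.filter (fun S => T ⊆ S),
      S.card ∈ Finset.range (b + 1) := by
    intro S hS
    rw [Finset.mem_filter, Finset.mem_powerset] at hS
    have := Finset.card_le_card hS.1
    rw [Nat.card_Ico] at this
    rw [Finset.mem_range]; omega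
  rw [← Finset.sum_fiberwise_of_maps_to hmap]
  refine Finset.sum_congr rfl fun s _ => ?_
  have h1 : ((Finset.Ico n (n + b)).powerset.filter (fun S => T ⊆ S)).filter (fun S => S.card = s)
      = ((Finset.Ico n (n + b)).powersetCard s).filter (fun S => T ⊆ S) := by
    ext S
    simp only [Finset.mem_filter, Finset.mem_powerset, Finset.mem_powersetCard]
    tauto
  rw [h1]
  have h2 : ∑ S ∈ ((Finset.Ico n (n + b)).powersetCard s).filter (fun S => T ⊆ S), h S.card
      = ∑ S ∈ ((Finset.Ico n (n + b)).powersetCard s).filter (fun S => T ⊆ S), h s := by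
    refine Finset.sum_congr rfl fun S hS => ?_
    rw [Finset.mem_filter, Finset.mem_powersetCard] at hS
    rw [hS.1.2]
  rw [h2, Finset.sum_const, smul_eq_mul]
  congr 1
  unfold cf
  by_cases hs : T.card ≤ s
  · rw [Nat.ble_eq_true_of_le hs, cond_true, card_sup _ _ _ hT hs, Nat.card_Ico]
    congr 1; omega
  · have : Nat.ble T.card s = false := by
      rw [← Bool.not_eq_true, Nat.ble_eq]; exact hs
    rw [this, cond_false, Finset.card_eq_zero, Finset.filter_false_of_mem]
    intro S hS h3
    have := Finset.card_le_card h3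
    rw [Finset.mem_powersetCard] at hS
    omega

lemma wS_cons (b : ℕ) (bs : List ℕ) (g : ℕ → ℕ) (T : Finset ℕ)
    (hT : T ⊆ Finset.range (tt bs + b)) :
    wS (b :: bs) g T = wS bs (fun i => ∑ s ∈ Finset.range (b + 1),
      cf b (T ∩ Finset.Ico (tt bs) (tt bs + b)).card s * g (i + s * W bs))
        (T ∩ Finset.range (tt bs)) := by
  set n := tt bs with hn
  have hr : Finset.range (tt (b :: bs)) = Finset.range (n + b) := rfl
  unfold wS
  rw [hr]
  have h1 : ∑ S ∈ (Finset.range (n + b)).powerset.filter (fun S => T ⊆ S), g (idx (b :: bs) S)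
      = ∑ p ∈ ((Finset.range n).powerset.filter (fun S => T ∩ Finset.range n ⊆ S)) ×ˢ
          ((Finset.Ico n (n + b)).powerset.filter (fun S => T ∩ Finset.Ico n (n + b) ⊆ S)),
          g (idx bs p.1 + p.2.card * W bs) := by
    refine Finset.sum_nbij' (fun S => (S ∩ Finset.range n, S ∩ Finset.Ico n (n + b)))
      (fun p => p.1 ∪ p.2) ?_ ?_ ?_ ?_ ?_
    · intro S hS
      rw [Finset.mem_filter, Finset.mem_powerset] at hS
      simp only [Finset.mem_product, Finset.mem_filter, Finset.mem_powerset]
      exact ⟨⟨Finset.inter_subset_right, Finset.inter_subset_inter hS.2 (le_refl _)⟩,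
        ⟨Finset.inter_subset_right, Finset.inter_subset_inter hS.2 (le_refl _)⟩⟩
    · rintro ⟨A, B⟩ hp
      simp only [Finset.mem_product, Finset.mem_filter, Finset.mem_powerset] at hp
      rw [Finset.mem_filter, Finset.mem_powerset]
      constructor
      · refine Finset.union_subset (hp.1.1.trans ?_) (hp.2.1.trans ?_)
        · intro x hx; rw [Finset.mem_range] at hx ⊢; omega
        · intro x hx; rw [Finset.mem_Ico] at hx; rw [Finset.mem_range]; omega
      · rw [← split_eq n b T hT]
        exact Finset.union_subset_union hp.1.2 hp.2.2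
    · intro S hS
      rw [Finset.mem_filter, Finset.mem_powerset] at hS
      exact split_eq n b S hS.1
    · rintro ⟨A, B⟩ hp
      simp only [Finset.mem_product, Finset.mem_filter, Finset.mem_powerset] at hp
      simp only [Prod.mk.injEq]
      constructor
      · rw [Finset.union_inter_distrib_right, Finset.inter_eq_left.2 hp.1.1,
          Finset.disjoint_iff_inter_eq_empty.1 ((dis n b).symm.mono_left hp.2.1), Finset.union_empty]
      · rw [Finset.union_inter_distrib_right, Finset.inter_eq_left.2 hp.2.1,
          Finset.disjoint_iff_inter_eq_empty.1 ((dis n b).mono_left hp.1.1), Finset.empty_union]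
    · intro S hS
      rw [Finset.mem_filter, Finset.mem_powerset] at hS
      rw [idx_split b bs S hS.1]
  rw [h1, Finset.sum_product]
  refine Finset.sum_congr rfl fun A _ => ?_
  exact sum_card_block n b (T ∩ Finset.Ico n (n + b)) Finset.inter_subset_right
    (fun s => g (idx bs A + s * W bs))

lemma sum_cf_le (b c : ℕ) (hc : c ≤ b) : ∑ s ∈ Finset.range (b + 1), cf b c s ≤ 2 ^ b := by
  have hmono : ∀ c n r : ℕ, n.choose r ≤ (n + c).choose (r + c) := by
    intro c
    induction c with
    | zero => intro n r; exact le_rfl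
    | succ c ih =>
      intro n r
      refine (ih n r).trans ?_
      rw [← Nat.add_assoc, ← Nat.add_assoc, Nat.choose_succ_succ]
      exact Nat.le_add_right _ _
  rw [← Nat.sum_range_choose]
  refine Finset.sum_le_sum fun s _ => ?_
  unfold cf
  by_cases hs : c ≤ s
  · rw [Nat.ble_eq_true_of_le hs, cond_true]
    have := hmono c (b - c) (s - c)
    rwa [Nat.sub_add_cancel hc, Nat.sub_add_cancel hs] at this
  · have : Nat.ble c s = false := by
      rw [← Bool.not_eq_true, Nat.ble_eq]; exact hs
    rw [this, cond_false]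
    exact Nat.zero_le _

theorem chk_sound (L : ℕ) : ∀ (bs : List ℕ) (j x t : ℕ) (g : ℕ → ℕ) (A : ℕ),
    chk L bs j x t = true → x = D L (W bs) g → (∀ i < W bs, g i ≤ A) → A * 2 ^ (tt bs) < 2 ^ L →
    ∀ T ⊆ Finset.range (tt bs), T.card = j → wS bs g T = t := by
  intro bs
  induction bs with
  | nil =>
    intro j x t g A hchk hx hA hL T hT hTj
    have hT0 : T = ∅ := by simpa [tt] using hT
    subst hT0
    rw [Finset.card_empty] at hTj
    subst hTj
    have hchk' : Nat.beq x t = true := hchk
    rw [Nat.beq_eq] at hchk'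
    rw [← hchk', hx]
    simp [wS, tt, D, W, idx]
  | cons b bs ih =>
    intro j x t g A hchk hx hA hL T hT hTj
    rw [tt] at hT hL
    rw [wS_cons b bs g T hT]
    set c := (T ∩ Finset.Ico (tt bs) (tt bs + b)).card with hc
    have hcb : c ≤ b := by
      refine (Finset.card_le_card Finset.inter_subset_right).trans ?_
      rw [Nat.card_Ico]; omega
    have hcard : (T ∩ Finset.range (tt bs)).card + c = T.card := by
      rw [hc, ← Finset.card_union_of_disjoint
        ((dis _ _).mono Finset.inter_subset_right Finset.inter_subset_right), split_eq _ _ _ hT]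
    rw [chk, allTo_iff] at hchk
    have h1 := hchk c (by omega)
    rw [Nat.ble_eq_true_of_le (by omega : c ≤ j), cond_true] at h1
    have hpow : A < 2 ^ L := lt_of_le_of_lt (Nat.le_mul_of_pos_right _ (by positivity)) hL
    refine ih (j - c) _ t _ (A * 2 ^ b) h1 ?_ ?_ ?_ _ Finset.inter_subset_right (by omega)
    · rw [sumTo_eq]
      have h2 : ∀ s ∈ Finset.range (b + 1),
          cf b c s * ((x / 2 ^ (L * (s * W bs))) % 2 ^ (L * W bs))
            = cf b c s * D L (W bs) (fun i => g (i + s * W bs)) := by
        intro s hs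
        rw [Finset.mem_range] at hs
        congr 1
        obtain ⟨r, hr⟩ : ∃ r, b = s + r := ⟨b - s, by omega⟩
        have h3 : W (b :: bs) = s * W bs + W bs + r * W bs := by
          rw [W, hr]; ring
        rw [hx, h3]
        refine D_slice L (s * W bs) (W bs) (r * W bs) g ?_
        intro i hi
        rw [← h3] at hi
        exact lt_of_le_of_lt (hA i hi) hpow
      rw [Finset.sum_congr rfl h2]
      unfold D
      simp_rw [Finset.mul_sum]
      rw [Finset.sum_comm]
      refine Finset.sum_congr rfl fun i _ => ?_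
      rw [Finset.sum_mul]
      refine Finset.sum_congr rfl fun s _ => ?_
      ring
    · intro i hi
      calc ∑ s ∈ Finset.range (b + 1), cf b c s * g (i + s * W bs)
          ≤ ∑ s ∈ Finset.range (b + 1), cf b c s * A := by
            refine Finset.sum_le_sum fun s hs => Nat.mul_le_mul_left _ (hA _ ?_)
            rw [Finset.mem_range] at hs
            rw [W]
            have : s * W bs ≤ b * W bs := Nat.mul_le_mul_right _ (by omega)
            have e : (b + 1) * W bs = b * W bs + W bs := by ring
            omega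
        _ = (∑ s ∈ Finset.range (b + 1), cf b c s) * A := by rw [Finset.sum_mul]
        _ ≤ 2 ^ b * A := Nat.mul_le_mul_right _ (sum_cf_le b c hcb)
        _ = A * 2 ^ b := Nat.mul_comm _ _
    · calc A * 2 ^ b * 2 ^ tt bs = A * 2 ^ (tt bs + b) := by rw [pow_add]; ring
        _ < 2 ^ L := hL

theorem ex_sound (L : ℕ) : ∀ (bs : List ℕ) (k F : ℕ), ∃ g : ℕ → ℕ,
    ex L bs k F = D L (W bs) g ∧ (∀ i, g i ≤ 1) ∧ ∀ S ⊆ Finset.range (tt bs),
      g (idx bs S) = if S.card = k ∧ F.testBit (idx bs S) = true then 1 else 0 := by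
  intro bs
  induction bs with
  | nil =>
    intro k F
    refine ⟨fun _ => if k = 0 ∧ F.testBit 0 = true then 1 else 0, ?_, ?_, ?_⟩
    · rw [ex]
      have h1 : D L (W []) (fun _ => if k = 0 ∧ F.testBit 0 = true then 1 else 0)
          = if k = 0 ∧ F.testBit 0 = true then 1 else 0 := by simp [D, W]
      rw [h1]
      cases k with
      | zero =>
        have h0 : Nat.beq 0 0 = true := rfl
        rw [h0, cond_true, Nat.testBit_zero]
        rcases Nat.mod_two_eq_zero_or_one F with h | h <;> simp [h]
      | succ k =>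
        have : Nat.beq (k + 1) 0 = false := rfl
        rw [this, cond_false]
        simp
    · intro i; simp only; split_ifs <;> simp
    · intro S hS
      have hS0 : S = ∅ := by simpa [tt] using hS
      subst hS0
      simp only [idx, Finset.sum_empty, Finset.card_empty]
      congr 1
      rw [eq_comm (a := k)]
  | cons b bs ih =>
    intro k F
    by_cases hF : F = 0
    · refine ⟨fun _ => 0, ?_, fun _ => Nat.zero_le _, ?_⟩
      · rw [hF, ex]
        have : Nat.beq 0 0 = true := rfl
        rw [this, cond_true]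
        simp [D]
      · intro S _
        rw [hF]
        simp
    by_cases hk : k ≤ tt bs + b
    · choose gs hgs using fun s : ℕ => ih (k - s) ((F / 2 ^ (s * W bs)) % 2 ^ (W bs))
      refine ⟨fun i => if i / W bs ≤ k then gs (i / W bs) (i % W bs) else 0, ?_, ?_, ?_⟩
      · have h1 : Nat.beq F 0 = false := by
          rw [← Bool.not_eq_true, Nat.beq_eq]; exact hF
        rw [ex, h1, cond_false, Nat.ble_eq_true_of_le hk, cond_true, sumTo_eq, W, D_blocks]
        refine Finset.sum_congr rfl fun s hs => ?_
        have hW := W_pos bs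
        have h2 : D L (W bs) (fun i => if (i + s * W bs) / W bs ≤ k then
            gs ((i + s * W bs) / W bs) ((i + s * W bs) % W bs) else 0)
            = if s ≤ k then D L (W bs) (gs s) else 0 := by
          have h3 : ∀ i < W bs, (if (i + s * W bs) / W bs ≤ k then
              gs ((i + s * W bs) / W bs) ((i + s * W bs) % W bs) else 0)
              = if s ≤ k then gs s i else 0 := by
            intro i hi
            rw [Nat.add_mul_div_right _ _ hW, Nat.div_eq_of_lt hi, Nat.zero_add,
              Nat.add_mul_mod_self_right, Nat.mod_eq_of_lt hi]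
          rw [D_congr _ _ _ _ h3]
          split_ifs with h4
          · rfl
          · simp [D]
        rw [h2]
        by_cases h4 : s ≤ k
        · rw [if_pos h4, Nat.ble_eq_true_of_le h4, cond_true, force_eq, force_eq, (hgs s).1]
        · have : Nat.ble s k = false := by
            rw [← Bool.not_eq_true, Nat.ble_eq]; exact h4
          rw [if_neg h4, this, cond_false, Nat.mul_zero]
      · intro i
        simp only
        split_ifs
        · exact (hgs _).2.1 _
        · exact Nat.zero_le _
      · intro S hS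
        rw [tt] at hS
        have hW := W_pos bs
        have h0 := idx_lt bs (S ∩ Finset.range (tt bs)) Finset.inter_subset_right
        rw [idx_split b bs S hS]
        set i0 := idx bs (S ∩ Finset.range (tt bs)) with hi0
        set s := (S ∩ Finset.Ico (tt bs) (tt bs + b)).card with hs
        have hcard : (S ∩ Finset.range (tt bs)).card + s = S.card := by
          rw [hs, ← Finset.card_union_of_disjoint
            ((dis _ _).mono Finset.inter_subset_right Finset.inter_subset_right), split_eq _ _ _ hS]
        simp only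
        rw [Nat.add_mul_div_right _ _ hW, Nat.div_eq_of_lt h0, Nat.zero_add,
              Nat.add_mul_mod_self_right, Nat.mod_eq_of_lt h0, hi0,
              (hgs s).2.2 _ Finset.inter_subset_right, ← hi0, Nat.testBit_mod_two_pow,
              Nat.testBit_div_two_pow]
        simp only [h0, decide_true, Bool.true_and]
        by_cases h4 : s ≤ k
        · rw [if_pos h4]
          congr 1
          have : ((S ∩ Finset.range (tt bs)).card = k - s) = (S.card = k) := by
            rw [eq_iff_iff]; omega
          rw [this]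
        · rw [if_neg h4, if_neg]
          rintro ⟨h5, -⟩
          omega
    · refine ⟨fun _ => 0, ?_, fun _ => Nat.zero_le _, ?_⟩
      · have h1 : Nat.beq F 0 = false := by
          rw [← Bool.not_eq_true, Nat.beq_eq]; exact hF
        have h2 : Nat.ble k (tt bs + b) = false := by
          rw [← Bool.not_eq_true, Nat.ble_eq]; exact hk
        rw [ex, h1, cond_false, h2, cond_false]
        simp [D]
      · intro S hS
        rw [if_neg]
        rintro ⟨h5, -⟩
        have := Finset.card_le_card hS
        rw [Finset.card_range, tt] at this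
        omega

/-- A verified table gives a sign function. -/
theorem table_LS (L : ℕ) (bs : List ℕ) (k F t n : ℕ) (hn : tt bs = n) (hL : n < L) (h3 : 3 ≤ k)
    (hchk : chk L bs 3 (ex L bs k F) t = true) (ht : 2 * t = (n - 3).choose (k - 3)) :
    LS 4 k n := by
  subst hn
  obtain ⟨g, hg1, hg2, hg3⟩ := ex_sound L bs k F
  have hchk' := chk_sound L bs 3 _ t g 1 hchk hg1 (fun i _ => hg2 i)
    (by rw [one_mul]; exact Nat.pow_lt_pow_right (by norm_num) hL)
  refine HS.ls (X := Finset.range (tt bs))
    (f := fun S => if F.testBit (idx bs S) = true then 1 else -1) ⟨?_, ?_⟩ (Finset.card_range _)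
  · intro S _ _
    split_ifs <;> simp
  · intro T hT
    refine null_of_null 3 k h3 (Finset.range (tt bs)) _ ?_ T hT
    intro T hT
    rw [Finset.mem_powersetCard] at hT
    have h1 := hchk' T hT.1 hT.2
    have h2 : wS bs g T = (((Finset.range (tt bs)).powersetCard k).filter
        (fun S => T ⊆ S) |>.filter (fun S => F.testBit (idx bs S) = true)).card := by
      unfold wS
      have h4 : ∀ S ∈ (Finset.range (tt bs)).powerset.filter (fun S => T ⊆ S),
          g (idx bs S) = if S.card = k ∧ F.testBit (idx bs S) = true then 1 else 0 := by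
        intro S hS
        rw [Finset.mem_filter, Finset.mem_powerset] at hS
        exact hg3 S hS.1
      rw [Finset.sum_congr rfl h4, ← Finset.card_filter]
      congr 1
      ext S
      simp only [Finset.mem_filter, Finset.mem_powerset, Finset.mem_powersetCard]
      tauto
    have h5 : (((Finset.range (tt bs)).powersetCard k).filter (fun S => T ⊆ S)).card
        = (tt bs - 3).choose (k - 3) := by
      rw [card_sup _ _ _ hT.1 (by rw [hT.2]; exact h3), Finset.card_range, hT.2]
    have h6 : ∑ S ∈ ((Finset.range (tt bs)).powersetCard k).filter (fun S => T ⊆ S),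
        (if F.testBit (idx bs S) = true then (1 : ℤ) else -1)
        = 2 * ((((Finset.range (tt bs)).powersetCard k).filter
        (fun S => T ⊆ S) |>.filter (fun S => F.testBit (idx bs S) = true)).card : ℤ)
          - (((Finset.range (tt bs)).powersetCard k).filter (fun S => T ⊆ S)).card := by
      set P := ((Finset.range (tt bs)).powersetCard k).filter (fun S => T ⊆ S)
      rw [Finset.sum_ite, Finset.sum_const, Finset.sum_const]
      have h7 := Finset.card_filter_add_card_filter_not (s := P)
        (fun S => F.testBit (idx bs S) = true)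
      have h8 : ((P.filter (fun S => F.testBit (idx bs S) = true)).card : ℤ)
          + (P.filter (fun S => ¬ F.testBit (idx bs S) = true)).card = P.card := by
        exact_mod_cast h7
      rw [nsmul_eq_mul, nsmul_eq_mul]
      linarith
    rw [h6, ← h2, h1, h5, ← ht]
    push_cast; ring

end Pool.Agent.Helper456.HC
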