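import Mathlib
import Pool.Agent.Helper456.HC.Table

set_option autoImplicit false

namespace Pool.Agent.Helper456.HC

/-- The table for `4`-subsets of `11` points. -/
def tab11_4 : ℕ := 0x100000000000101040000000000000001000000000001000600000001000001000000011200061060000000000000000100000001000000120000000000000110000001060114002800000000000000120001010401021440000100140016060801100028024068000000000000000000000000010000011200000001000001020001001000140248000000010001000400000014001216000000000401121068010606201400088000000000000100140001001001040608000101020006046000021448122060000000010601041220011002280068408000121240140008800448600028800000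

set_option maxRecDepth 100000 in
theorem chk11_4 : chk 12 [1, 1, 1, 1, 1, 1, 1, 1, 1, 1, 1] 3 (ex 12 [1, 1, 1, 1, 1, 1, 1, 1, 1, 1, 1] 4 tab11_4) 4 = true := by
  decide +kernel

theorem LS11_4 : LS 4 4 11 :=
  table_LS 12 [1, 1, 1, 1, 1, 1, 1, 1, 1, 1, 1] 4 tab11_4 4 11 rfl (by norm_num) (by norm_num) chk11_4
    (by decide +kernel)

end Pool.Agent.Helper456.HC
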