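import Mathlib
import Pool.Agent.Helper456.HC.Table

set_option autoImplicit false

namespace Pool.Agent.Helper456.HC

/-- The table for `5`-subsets of `11` points. -/
def tab11_5 : ℕ := 0x10000000000000016000000010001000000010104010402280000000000010012000001020104144000000112000614200112006010084880000000010000011000000016001402080000011000160448000214201620600000010000010212480114142802600800000606481040280006400080208080000000000100000006000101000112120000000104001012680014026014084080000100140006060000140628006060800100104816600800022848002800000000010002011014400012044806086080010602200620088010486800008000000100146804282080120020004880000010682000400080004800800080000000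

set_option maxRecDepth 100000 in
theorem chk11_5 : chk 12 [1, 1, 1, 1, 1, 1, 1, 1, 1, 1, 1] 3 (ex 12 [1, 1, 1, 1, 1, 1, 1, 1, 1, 1, 1] 5 tab11_5) 14 = true := by
  decide +kernel

theorem LS11_5 : LS 4 5 11 :=
  table_LS 12 [1, 1, 1, 1, 1, 1, 1, 1, 1, 1, 1] 5 tab11_5 14 11 rfl (by norm_num) (by norm_num) chk11_5
    (by decide +kernel)

end Pool.Agent.Helper456.HC
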