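import Mathlib
import Pool.Agent.Helper456.HC.Basic

set_option autoImplicit false

namespace Pool.Agent.Helper456.HC

open Finset

lemma choose_add_pow (n a b : ℕ) (hb : b < 2 ^ n) :
    (2 ^ n + a).choose b % 2 = a.choose b % 2 := by
  rw [Nat.add_choose_eq]
  have h0 : (0, b) ∈ Finset.HasAntidiagonal.antidiagonal b := by simp
  rw [← Finset.add_sum_erase _ _ h0]
  have h1 : 2 ∣ ∑ x ∈ (Finset.HasAntidiagonal.antidiagonal b).erase (0, b), (2 ^ n).choose x.1 * a.choose x.2 := by
    refine Finset.dvd_sum fun x hx => ?_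
    rw [Finset.mem_erase, Finset.HasAntidiagonal.mem_antidiagonal] at hx
    refine Dvd.dvd.mul_right ?_ _
    refine Nat.Prime.dvd_choose_pow Nat.prime_two ?_ ?_
    · intro h
      apply hx.1
      ext
      · exact h
      · simp only; omega
    · omega
  simp only [Nat.choose_zero_right, one_mul]
  omega

lemma choose_pred_pow (n b : ℕ) (hb : b < 2 ^ n) : (2 ^ n - 1).choose b % 2 = 1 := by
  induction b with
  | zero => simp
  | succ b ih =>
    have h1 := ih (by omega)
    have h2 : (2 ^ n).choose (b + 1) = (2 ^ n - 1).choose b + (2 ^ n - 1).choose (b + 1) := by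
      have : 2 ^ n = (2 ^ n - 1) + 1 := by omega
      conv_lhs => rw [this]
      rw [Nat.choose_succ_succ]
    have h3 : 2 ∣ (2 ^ n).choose (b + 1) :=
      Nat.Prime.dvd_choose_pow Nat.prime_two (by omega) (by omega)
    omega

/-- The row of `2 ^ n + 3` points. -/
def Row (n : ℕ) : Prop := ∀ k, 4 ≤ k → k < 2 ^ n → LS 4 k (2 ^ n + 3)

lemma row_succ (n : ℕ) (hn : 2 ≤ n) (hr : Row n) (h1 : LS 4 (2 ^ n) (2 ^ (n + 1) + 3))
    (h2 : LS 4 (2 ^ n + 1) (2 ^ (n + 1) + 3)) : Row (n + 1) := by
  have hlow : ∀ k, 4 ≤ k → k ≤ 2 ^ n + 1 → LS 4 k (2 ^ (n + 1) + 3) := by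
    intro k hk hk2
    rcases Nat.lt_or_ge k (2 ^ n) with h | h
    · have h3 := vrec k (2 ^ n + 3) (2 ^ n) hk (by omega) (hr k hk h)
        (fun i hi hik => hr i hi (by omega))
      have e : 2 ^ n + 3 + 2 ^ n = 2 ^ (n + 1) + 3 := by rw [pow_succ]; ring
      rwa [e] at h3
    · rcases Nat.eq_or_lt_of_le h with h | h
      · rw [← h]; exact h1
      · have : k = 2 ^ n + 1 := by omega
        rw [this]; exact h2
  intro k hk hk2
  rcases Nat.lt_or_ge k (2 ^ n + 2) with h | h
  · exact hlow k hk (by omega)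
  · have e : 2 ^ (n + 1) = 2 ^ n + 2 ^ n := by rw [pow_succ]; ring
    have h3 := hlow (2 ^ (n + 1) + 3 - k) (by omega) (by omega)
    have h4 := h3.compl (Nat.sub_le _ _)
    have e2 : 2 ^ (n + 1) + 3 - (2 ^ (n + 1) + 3 - k) = k := by omega
    rwa [e2] at h4

lemma pascal_row (n : ℕ) (hr : Row n) : ∀ r, 3 ≤ r → ∀ k, r < k → k < 2 ^ n →
    LS 4 k (2 ^ n + r) := by
  intro r hr3
  induction r, hr3 using Nat.le_induction with
  | base => intro k hk hk2; exact hr k hk hk2
  | succ r hr3 ih =>
    intro k hk hk2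
    obtain ⟨k', rfl⟩ : ∃ k', k = k' + 1 := ⟨k - 1, by omega⟩
    exact LS.pascal (ih k' (by omega) (by omega)) (ih (k' + 1) (by omega) hk2)

/-- The parity conditions. -/
def E (v k : ℕ) : Prop := ∀ i < 4, (v - i).choose (k - i) % 2 = 0

lemma E_diag (v k : ℕ) (hk : 3 < k) (hkv : k < v) (h : E v k) (i j : ℕ) (hji : j ≤ i)
    (hi : i < 4) : (v - i).choose (k - j) % 2 = 0 := by
  obtain ⟨d, rfl⟩ := Nat.exists_eq_add_of_le hji
  induction d generalizing j with
  | zero => exact h j hi
  | succ d ih =>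
    -- C(v-i, k-j) = C(v-i+1, k-j) - C(v-i, k-j-1)
    have h1 := ih j (by omega) (by omega)
    have h2 := ih (j + 1) (by omega) (by omega)
    have e1 : v - (j + d) = (v - (j + (d + 1))) + 1 := by omega
    have e2 : k - j = (k - (j + 1)) + 1 := by omega
    have e3 : v - (j + 1 + d) = v - (j + (d + 1)) := by omega
    rw [e3] at h2
    rw [e1, e2, Nat.choose_succ_succ] at h1
    rw [e2]
    simp only [Nat.succ_eq_add_one] at h1
    omega

lemma E_symm (v k : ℕ) (hk : 3 < k) (hkv : k < v) (h : E v k) : 3 < v - k ∧ E v (v - k) := by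
  have hd := E_diag v k hk hkv h
  have h3 : 3 < v - k := by
    by_contra hcon
    have h4 := hd (v - k) 0 (by omega) (by omega)
    have e : v - (v - k) = k := by omega
    rw [e, Nat.sub_zero, Nat.choose_self] at h4
    omega
  refine ⟨h3, fun i hi => ?_⟩
  have h4 := hd i 0 (by omega) hi
  rw [Nat.sub_zero] at h4
  have e : v - k - i = (v - i) - k := by omega
  rw [e, Nat.choose_symm (by omega)]
  exact h4

/-- The reduction to the rows. -/
theorem reduction (hrow : ∀ n, 3 ≤ n → Row n) : ∀ v k : ℕ, 3 < k → k < v → E v k → LS 4 k v := by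
  intro v
  induction v using Nat.strong_induction_on with
  | _ v ih =>
  -- the case of small k
  have hsmall : ∀ k, 3 < k → 2 * k ≤ v → E v k → LS 4 k v := by
    intro k hk hkv hE
    obtain ⟨n, hn1, hn2⟩ : ∃ n, 2 ^ n ≤ v ∧ v < 2 ^ (n + 1) :=
      ⟨Nat.log 2 v, Nat.pow_log_le_self 2 (by omega), Nat.lt_pow_succ_log_self (by norm_num) v⟩
    have e : 2 ^ (n + 1) = 2 ^ n + 2 ^ n := by rw [pow_succ]; ring
    have hn3 : 3 ≤ n := by
      by_contra hcon
      have : 2 ^ n ≤ 2 ^ 2 := Nat.pow_le_pow_right (by norm_num) (by omega)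
      omega
    have hk2 : k < 2 ^ n := by omega
    obtain ⟨v', rfl⟩ := Nat.exists_eq_add_of_le hn1
    have hv'2 : v' < 2 ^ n := by omega
    rcases Nat.lt_or_ge v' k |>.symm with h | h
    · have hE' : E v' k := by
        intro i hi
        have h1 := hE i hi
        have e1 : 2 ^ n + v' - i = 2 ^ n + (v' - i) := by omega
        rw [e1, choose_add_pow n _ _ (by omega)] at h1
        exact h1
      have hkv' : k < v' := by
        rcases Nat.eq_or_lt_of_le h with h1 | h1
        · exfalso
          have h2 := hE' 0 (by norm_num)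
          rw [h1, Nat.choose_self] at h2
          omega
        · exact h1
      have h1 := ih v' (by omega) k hk hkv' hE'
      have h2 := vrec k v' (2 ^ n) (by omega) hkv' h1
        (fun i hi hik => hrow n hn3 i hi (by omega))
      rwa [Nat.add_comm v' (2 ^ n)] at h2
    · rcases Nat.lt_or_ge v' 3 with h3 | h3
      · exfalso
        have h4 := hE (v' + 1) (by omega)
        have e1 : 2 ^ n + v' - (v' + 1) = 2 ^ n - 1 := by omega
        rw [e1, choose_pred_pow n _ (by omega)] at h4
        omega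
      · exact pascal_row n (hrow n hn3) v' h3 k h hk2
  intro k hk hkv hE
  rcases Nat.le_total (2 * k) v with h | h
  · exact hsmall k hk h hE
  · obtain ⟨h3, hE'⟩ := E_symm v k hk hkv hE
    have h1 := hsmall (v - k) h3 (by omega) hE'
    have h2 := h1.compl (by omega)
    have e : v - (v - k) = k := by omega
    rwa [e] at h2

end Pool.Agent.Helper456.HC
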