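import Mathlib
import Pool.Agent.Helper456.HC.Basic
import Pool.Agent.Helper456.HC.Main
import Pool.Agent.Helper456.HC.Parity
import Pool.Agent.Helper456.HC.Data11_4
import Pool.Agent.Helper456.HC.Data11_5
import Pool.Agent.Helper456.HC.Data19_8
import Pool.Agent.Helper456.HC.Data19_9
import Pool.Agent.Helper456.HC.Data35_16
import Pool.Agent.Helper456.HC.Data35_17

set_option autoImplicit false

namespace Pool.Agent.Helper456.HC

open Finset

/-- Numerical criterion. -/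
lemma num_ok (v k : ℕ) (hk : 3 ≤ k) (hv : k + 3 ≤ v)
    (par : ∀ i, i < 3 + 1 → 2 ∣ (v - i).choose (k - i))
    (h : 7 * (64 + 16 * v + 4 * v ^ 2 + v ^ 3) ^ 2 * (v - 2) * v.choose 3
      < 40 * (v - 6).choose (k - 3)) : LS 4 k v := by
  have hC6 : 0 < (v - 6).choose (k - 3) := Nat.choose_pos (by omega)
  set C6 : ℝ := ((v - 6).choose (k - 3) : ℝ) with hC6d
  have hC6r : 0 < C6 := by rw [hC6d]; exact_mod_cast hC6
  set C3 : ℝ := (v.choose 3 : ℝ) with hC3
  have hC30 : 0 ≤ C3 := by positivity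
  set w : ℝ := ((v - 2 : ℕ) : ℝ) with hw
  have hw0 : 0 ≤ w := by positivity
  have hr : 0 ≤ 14 / 5 * C3 * w / C6 := by positivity
  have hρ2 : Real.sqrt (14 / 5 * C3 * w / C6) ^ 2 = 14 / 5 * C3 * w / C6 := Real.sq_sqrt hr
  have h' : 7 * (64 + 16 * (v : ℝ) + 4 * (v : ℝ) ^ 2 + (v : ℝ) ^ 3) ^ 2 * w * C3 < 40 * C6 := by
    rw [hC6d, hw, hC3]
    exact_mod_cast h
  refine fourier_LS 3 k v hk hv par (Real.sqrt (14 / 5 * C3 * w / C6)) (Real.sqrt_nonneg _) ?_ ?_
  · rw [hρ2]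
    have h1 : Real.log (((v - 3).choose (k - 3) : ℝ) + 1) ≤ w * (7 / 10) := by
      have h2 : ((v - 3).choose (k - 3) : ℝ) + 1 ≤ 2 ^ (v - 2) := by
        have h3 : (v - 3).choose (k - 3) ≤ 2 ^ (v - 3) := Nat.choose_le_two_pow _ _
        have h4 : 2 ^ (v - 2) = 2 * 2 ^ (v - 3) := by
          rw [← pow_succ']; congr 1; omega
        have h5 : 0 < 2 ^ (v - 3) := by positivity
        have h6 : (v - 3).choose (k - 3) + 1 ≤ 2 ^ (v - 2) := by omega
        exact_mod_cast h6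
      calc Real.log (((v - 3).choose (k - 3) : ℝ) + 1) ≤ Real.log ((2 : ℝ) ^ (v - 2)) :=
            Real.log_le_log (by positivity) h2
        _ = w * Real.log 2 := by rw [Real.log_pow, hw]
        _ ≤ w * (7 / 10) := by
            refine mul_le_mul_of_nonneg_left ?_ hw0
            have := Real.log_two_lt_d9
            linarith
    have e6 : v - 2 * 3 = v - 6 := by omega
    rw [e6, ← hC6d, div_mul_cancel₀ _ hC6r.ne']
    have h7 := mul_le_mul_of_nonneg_left h1 hC30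
    linarith
  · set P : ℝ := 64 + 16 * (v : ℝ) + 4 * (v : ℝ) ^ 2 + (v : ℝ) ^ 3 with hP
    have hP0 : 0 ≤ P := by positivity
    have hsum : ∑ i ∈ Finset.range (3 + 1), ((v : ℝ) / 4) ^ i = P / 64 := by
      simp only [Finset.sum_range_succ, Finset.sum_range_zero]
      rw [hP]; ring
    rw [hsum]
    have h8 : (Real.sqrt (14 / 5 * C3 * w / C6) * P) ^ 2 < 4 ^ 2 := by
      rw [mul_pow, hρ2]
      have e : 14 / 5 * C3 * w / C6 * P ^ 2 = (2 / 5 * (7 * P ^ 2 * w * C3)) / C6 := by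
        field_simp; ring
      rw [e, div_lt_iff₀ hC6r]
      linarith
    have h9 : Real.sqrt (14 / 5 * C3 * w / C6) * P < 4 :=
      lt_of_pow_lt_pow_left₀ 2 (by norm_num) h8
    have : Real.sqrt (14 / 5 * C3 * w / C6) * (P / 64)
        = Real.sqrt (14 / 5 * C3 * w / C6) * P / 64 := by ring
    rw [this]
    norm_num
    linarith

lemma par_root (m k : ℕ) (hk : 4 ≤ k) (hk2 : k < 2 ^ m) :
    ∀ i, i < 3 + 1 → 2 ∣ (2 ^ m + 3 - i).choose (k - i) := by
  intro i hi
  have e : 2 ^ m + 3 - i = 2 ^ m + (3 - i) := by omega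
  rw [e, Nat.dvd_iff_mod_eq_zero, choose_add_pow m _ _ (by omega),
    Nat.choose_eq_zero_of_lt (by omega)]

lemma exp_ineq (m : ℕ) (hm : 6 ≤ m) : 20 + 11 * m ≤ 2 ^ (m + 1) := by
  induction m, hm using Nat.le_induction with
  | base => norm_num
  | succ m hm ih => rw [pow_succ]; omega

/-- The numerical inequality for large roots. -/
lemma num_large (m k : ℕ) (hm : 6 ≤ m) (hk : k = 2 ^ m ∨ k = 2 ^ m + 1) :
    7 * (64 + 16 * (2 ^ (m + 1) + 3) + 4 * (2 ^ (m + 1) + 3) ^ 2 + (2 ^ (m + 1) + 3) ^ 3) ^ 2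
      * ((2 ^ (m + 1) + 3) - 2) * (2 ^ (m + 1) + 3).choose 3
      < 40 * ((2 ^ (m + 1) + 3) - 6).choose (k - 3) := by
  obtain ⟨N, hN⟩ : ∃ N, 2 ^ m = N := ⟨_, rfl⟩
  have hN64 : 64 ≤ N := by
    rw [← hN]
    calc 64 = 2 ^ 6 := by norm_num
      _ ≤ 2 ^ m := Nat.pow_le_pow_right (by norm_num) hm
  have e1 : 2 ^ (m + 1) = 2 * N := by rw [pow_succ, hN]; ring
  rw [e1]
  rw [hN] at hk
  obtain ⟨M, rfl⟩ : ∃ M, N = M + 3 := ⟨N - 3, by omega⟩
  have e2 : 2 * (M + 3) + 3 - 6 = 2 * M + 3 := by omega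
  rw [e2]
  -- central binomials
  have c1 := Nat.four_pow_le_two_mul_self_mul_centralBinom (M + 2) (by omega)
  have c2 : (M + 2).centralBinom = 2 * (2 * M + 3).choose (M + 1) := by
    rw [Nat.centralBinom]
    have e3 : 2 * (M + 2) = (2 * M + 3) + 1 := by ring
    have e4 : M + 2 = (M + 1) + 1 := by ring
    rw [e3, e4, Nat.choose_succ_succ]
    have e5 : (2 * M + 3).choose (M + 1 + 1) = (2 * M + 3).choose (M + 1) := by
      rw [← Nat.choose_symm (by omega : M + 1 ≤ 2 * M + 3)]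
      congr 1; omega
    simp only [Nat.succ_eq_add_one] at *
    rw [e5]; ring
  have c3 : (2 * M + 3).choose (M + 1) * (M + 1) = (2 * M + 3).choose M * (M + 3) := by
    have := Nat.choose_succ_right_eq (2 * M + 3) M
    have e : 2 * M + 3 - M = M + 3 := by omega
    rw [e] at this
    exact this
  have c4 : (2 * M + 3).choose (M + 1) ≤ 2 * (2 * M + 3).choose M := by
    by_contra hcon
    push Not at hcon
    have : 2 * (2 * M + 3).choose M * (M + 1) < (2 * M + 3).choose (M + 1) * (M + 1) :=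
      Nat.mul_lt_mul_of_pos_right hcon (by omega)
    rw [c3] at this
    nlinarith [Nat.zero_le ((2 * M + 3).choose M)]
  have c5 : (2 * M + 3).choose (M + 1) ≤ 2 * (2 * M + 3).choose (k - 3) := by
    rcases hk with hk | hk
    · have : k - 3 = M := by omega
      rw [this]; exact c4
    · have : k - 3 = M + 1 := by omega
      rw [this]; omega
  have c6 : 4 ^ (M + 2) ≤ 8 * (M + 2) * (2 * M + 3).choose (k - 3) := by
    calc 4 ^ (M + 2) ≤ 2 * (M + 2) * (M + 2).centralBinom := c1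
      _ = 4 * (M + 2) * (2 * M + 3).choose (M + 1) := by rw [c2]; ring
      _ ≤ 4 * (M + 2) * (2 * (2 * M + 3).choose (k - 3)) := Nat.mul_le_mul_left _ c5
      _ = _ := by ring
  -- polynomial bounds
  set N := M + 3 with hNM
  set v := 2 * N + 3 with hv
  have hv3 : v ≤ 3 * N := by omega
  have hv0 : 100 ≤ v := by omega
  have p1 : 64 + 16 * v + 4 * v ^ 2 + v ^ 3 ≤ 2 * v ^ 3 := by nlinarith [sq_nonneg v]
  have p2 : 2 * v ^ 3 ≤ 54 * N ^ 3 := by
    have : v ^ 3 ≤ (3 * N) ^ 3 := Nat.pow_le_pow_left hv3 3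
    calc 2 * v ^ 3 ≤ 2 * (3 * N) ^ 3 := Nat.mul_le_mul_left _ this
      _ = 54 * N ^ 3 := by ring
  have p3 : (64 + 16 * v + 4 * v ^ 2 + v ^ 3) ^ 2 ≤ (54 * N ^ 3) ^ 2 :=
    Nat.pow_le_pow_left (p1.trans p2) 2
  have p4 : v.choose 3 ≤ 9 * N ^ 3 := by
    have h1 : v.choose 3 * 3 = v.choose 2 * (v - 2) := Nat.choose_succ_right_eq v 2
    have h2 : v.choose 2 * 2 = v.choose 1 * (v - 1) := Nat.choose_succ_right_eq v 1
    rw [Nat.choose_one_right] at h2
    have h3 : v - 2 ≤ 3 * N := by omega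
    have h4 : v - 1 ≤ 3 * N := by omega
    have h5 : v.choose 2 * 2 ≤ 3 * N * (3 * N) := by rw [h2]; exact Nat.mul_le_mul hv3 h4
    have h6 : v.choose 3 * 3 ≤ v.choose 2 * (3 * N) := by rw [h1]; exact Nat.mul_le_mul_left _ h3
    have h7 : v.choose 3 * 3 * 2 ≤ 3 * N * (3 * N) * (3 * N) := by
      calc v.choose 3 * 3 * 2 ≤ v.choose 2 * (3 * N) * 2 := Nat.mul_le_mul_right _ h6
        _ = (v.choose 2 * 2) * (3 * N) := by ring
        _ ≤ 3 * N * (3 * N) * (3 * N) := Nat.mul_le_mul_right _ h5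
    have h8 : 3 * N * (3 * N) * (3 * N) = 27 * N ^ 3 := by ring
    rw [h8] at h7
    omega
  have p5 : v - 2 ≤ 3 * N := by omega
  have hbig : 7 * (64 + 16 * v + 4 * v ^ 2 + v ^ 3) ^ 2 * (v - 2) * v.choose 3 * (8 * (M + 2))
      < 40 * 4 ^ (M + 2) := by
    calc 7 * (64 + 16 * v + 4 * v ^ 2 + v ^ 3) ^ 2 * (v - 2) * v.choose 3 * (8 * (M + 2))
        ≤ 7 * (54 * N ^ 3) ^ 2 * (3 * N) * (9 * N ^ 3) * (8 * N) := by
          refine Nat.mul_le_mul (Nat.mul_le_mul (Nat.mul_le_mul (Nat.mul_le_mul_left _ p3) p5) p4)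
            (Nat.mul_le_mul_left _ (by omega))
      _ = 4408992 * N ^ 11 := by ring
      _ ≤ 2 ^ 23 * N ^ 11 := Nat.mul_le_mul_right _ (by norm_num)
      _ = 2 ^ (23 + 11 * m) := by rw [← hN, ← pow_mul, ← pow_add]; congr 1; ring
      _ ≤ 2 ^ (2 * N + 3) := by
          refine Nat.pow_le_pow_right (by norm_num) ?_
          have := exp_ineq m hm
          omega
      _ = 8 * 4 ^ N := by
          have : (4 : ℕ) = 2 ^ 2 := by norm_num
          rw [this, ← pow_mul, pow_add]; ring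
      _ = 32 * 4 ^ (M + 2) := by rw [hNM]; ring
      _ < 40 * 4 ^ (M + 2) := Nat.mul_lt_mul_of_pos_right (by norm_num) (by positivity)
  have h8 : 0 < 8 * (M + 2) := by omega
  by_contra hcon
  push Not at hcon
  have : 40 * (2 * M + 3).choose (k - 3) * (8 * (M + 2))
      ≤ 7 * (64 + 16 * v + 4 * v ^ 2 + v ^ 3) ^ 2 * (v - 2) * v.choose 3 * (8 * (M + 2)) :=
    Nat.mul_le_mul_right _ hcon
  nlinarith

lemma root_large (m k : ℕ) (hm : 6 ≤ m) (hk : k = 2 ^ m ∨ k = 2 ^ m + 1) :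
    LS 4 k (2 ^ (m + 1) + 3) := by
  have h64 : 64 ≤ 2 ^ m := by
    calc 64 = 2 ^ 6 := by norm_num
      _ ≤ 2 ^ m := Nat.pow_le_pow_right (by norm_num) hm
  have e : 2 ^ (m + 1) = 2 ^ m + 2 ^ m := by rw [pow_succ]; ring
  exact num_ok _ k (by omega) (by omega) (par_root (m + 1) k (by omega) (by omega))
    (num_large m k hm hk)

lemma choose_61_29 : (61 : ℕ).choose 29 = 218169540588403635 := by
  rw [Nat.choose_eq_descFactorial_div_factorial]
  norm_num [Nat.descFactorial, Nat.factorial]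

lemma choose_61_30 : (61 : ℕ).choose 30 = 232714176627630544 := by
  rw [Nat.choose_eq_descFactorial_div_factorial]
  norm_num [Nat.descFactorial, Nat.factorial]

lemma choose_67_3 : (67 : ℕ).choose 3 = 47905 := by
  rw [Nat.choose_eq_descFactorial_div_factorial]
  norm_num [Nat.descFactorial, Nat.factorial]

lemma root_67 (k : ℕ) (hk : k = 32 ∨ k = 33) : LS 4 k 67 := by
  refine num_ok 67 k (by omega) (by omega) ?_ ?_
  · have h := par_root 6 k (by omega) (by omega)
    norm_num at h ⊢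
    exact h
  · have e1 : 67 - 6 = 61 := rfl
    rw [e1, choose_67_3]
    rcases hk with rfl | rfl
    · have e2 : 32 - 3 = 29 := rfl
      rw [e2, choose_61_29]; norm_num
    · have e2 : 33 - 3 = 30 := rfl
      rw [e2, choose_61_30]; norm_num

/-- All the roots. -/
lemma roots (m k : ℕ) (hm : 3 ≤ m) (hk : k = 2 ^ m ∨ k = 2 ^ m + 1) :
    LS 4 k (2 ^ (m + 1) + 3) := by
  rcases Nat.lt_or_ge m 6 with h | h
  · interval_cases m
    · norm_num at hk ⊢
      rcases hk with rfl | rfl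
      · exact LS19_8
      · exact LS19_9
    · norm_num at hk ⊢
      rcases hk with rfl | rfl
      · exact LS35_16
      · exact LS35_17
    · norm_num at hk ⊢
      exact root_67 k hk
  · exact root_large m k h hk

lemma row_three : Row 3 := by
  intro k hk hk2
  norm_num at hk2 ⊢
  have h4 : LS 4 4 11 := LS11_4
  have h5 : LS 4 5 11 := LS11_5
  interval_cases k
  · exact h4
  · exact h5
  · exact h5.compl (by norm_num)
  · exact h4.compl (by norm_num)

theorem rows (n : ℕ) (hn : 3 ≤ n) : Row n := by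
  induction n, hn using Nat.le_induction with
  | base => exact row_three
  | succ n hn ih =>
    exact row_succ n (by omega) ih (roots n _ hn (Or.inl rfl)) (roots n _ hn (Or.inr rfl))

/-- The halving theorem for sign functions. -/
theorem halving (v k : ℕ) (hk : 3 < k) (hkv : k < v) (hE : E v k) : LS 4 k v :=
  reduction rows v k hk hkv hE

end Pool.Agent.Helper456.HC
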